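import Pool.Agent.Run7.h213.T.Det

/-!
Lower bounds: connection of two points, and closed dual circuit.
-/

set_option maxHeartbeats 1000000

namespace T213

open H31K H974 Finset Pool.Agent.W424.NC

theorem harris2 {q : ℝ} (ok : Ok (fun _ : Edg => q)) {S : Finset Edg}
    {A B : Finset Edg → Prop} (hA : IncrE S A) (hB : IncrE S B) {a b : ℝ} (ha0 : 0 ≤ a)
    (hb0 : 0 ≤ b) (ha : a ≤ Pr (fun _ => q) S A) (hb : b ≤ Pr (fun _ => q) S B) :
    a * b ≤ Pr (fun _ => q) S (fun F => A F ∧ B F) :=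
  (mul_le_mul ha hb hb0 (ha0.trans ha)).trans (Pr_harris ok hA hB)

theorem pr_conn {p κ : ℝ} {m r : ℕ} (hW : H12S.Win p κ (4 * m)) (hm : 1 ≤ m) (hmr : m ≤ r)
    {x1 x2 : ℤ} (hx1 : |x1| ≤ r) (hx2 : |x2| ≤ r) :
    ((arm p (2 * m) * κ^4) * (arm p (2 * m) * κ^4)) *
      ((κ * Real.exp (-(2 * Real.log (1 / κ)) * (((5 * r : ℕ) : ℝ) / m))) *
       (κ * Real.exp (-(2 * Real.log (1 / κ)) * (((5 * r : ℕ) : ℝ) / m)))) ≤
      Pr (fun _ => p) (boxE (3 * r)) (Conn m x1 x2) := by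
  have h0 : 0 ≤ p := by linarith [hW.lo]
  have h1 : p ≤ 1 := by linarith [hW.hi]
  have hk := hW.kpos
  have ok := okq h0 h1
  have hx1' := abs_le.mp hx1
  have hx2' := abs_le.mp hx2
  obtain ⟨S, hS⟩ : ∃ S : Finset Edg, S = boxE (3 * r) := ⟨_, rfl⟩
  rw [← hS]
  have s1 : boxE (2 * m) ⊆ S := by rw [hS]; exact boxE_mono (by omega)
  have s2 : RE (x1 - (2 * m : ℕ)) (x1 + (2 * m : ℕ)) (x2 - (2 * m : ℕ)) (x2 + (2 * m : ℕ)) ⊆ S := by
    rw [hS]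
    unfold boxE
    apply RE_subset <;> (push_cast; omega)
  have e1 := pr_Arm p s1
  have e2 := pr_shift_arm p s2
  have hc0 : κ ≤ hh p (2 * ((2 * m : ℕ) : ℤ)) (((2 * m : ℕ) : ℤ) - m) := by
    refine (hW.pri m hm (by omega)).trans ?_
    apply hh_mono h0 h1 <;> (push_cast; omega)
  have c1 : κ^4 ≤ Pr (fun _ => p) S (Circ m ((2 * m : ℕ) : ℤ)) := by
    refine le_trans ?_ (pr_Circ h0 h1 (R1 := m) (R2 := ((2 * m : ℕ) : ℤ)) (by positivity)
      (by push_cast; omega) s1)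
    exact pow_le_pow_left₀ hk.le hc0 _
  have c2 : κ^4 ≤ Pr (fun _ => p) S
      (fun F => Circ m ((2 * m : ℕ) : ℤ) ((trl (-x1) (-x2)).mp F)) := by
    rw [← LSym.pr]
    refine le_trans ?_ (pr_Circ h0 h1 (R1 := m) (R2 := ((2 * m : ℕ) : ℤ)) (by positivity)
      (by push_cast; omega) ?_)
    · exact pow_le_pow_left₀ hk.le hc0 _
    · have h3 := LSym.mp_mono (trl (-x1) (-x2)) s2
      rw [trl_RE] at h3
      refine Finset.Subset.trans ?_ h3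
      apply RE_subset <;> omega
  have hlen : κ * Real.exp (-(2 * Real.log (1 / κ)) * (((5 * r : ℕ) : ℝ) / m)) ≤
      hh p ((5 * r : ℕ) : ℤ) m := hh_exp (hW.anti (by omega)) hm (by omega)
  have hpos : 0 ≤ κ * Real.exp (-(2 * Real.log (1 / κ)) * (((5 * r : ℕ) : ℝ) / m)) := by
    positivity
  have e5 : κ * Real.exp (-(2 * Real.log (1 / κ)) * (((5 * r : ℕ) : ℝ) / m)) ≤
      Pr (fun _ => p) S (LRc (min 0 x1 - 2 * m) (max 0 x1 + 2 * m) (-m) m) := by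
    rw [pr_LRc p (LRE_subset_RE.trans (by
      rw [hS]; unfold boxE; apply RE_subset <;> (push_cast; omega)))]
    refine hlen.trans ?_
    apply hh_mono h0 h1 <;> (push_cast; omega)
  have e6 : κ * Real.exp (-(2 * Real.log (1 / κ)) * (((5 * r : ℕ) : ℝ) / m)) ≤
      Pr (fun _ => p) S (TBc (x1 - m) (x1 + m) (min 0 x2 - 2 * m) (max 0 x2 + 2 * m)) := by
    rw [pr_TBc p (TBE_subset_RE.trans (by
      rw [hS]; unfold boxE; apply RE_subset <;> (push_cast; omega)))]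
    refine hlen.trans ?_
    apply hh_mono h0 h1 <;> (push_cast; omega)
  have ha0 := arm_nonneg h0 h1 (2 * m)
  have i1 : IncrE S (fun F : Finset Edg => Arm (2 * m) F ∧ Circ m ((2 * m : ℕ) : ℤ) F) :=
    fun F G h _ hF => ⟨hF.1.mono h, hF.2.mono h⟩
  have i2 : IncrE S (fun F : Finset Edg => Arm (2 * m) ((trl (-x1) (-x2)).mp F) ∧
      Circ m ((2 * m : ℕ) : ℤ) ((trl (-x1) (-x2)).mp F)) :=
    fun F G h _ hF => ⟨hF.1.mono (LSym.mp_mono _ h), hF.2.mono (LSym.mp_mono _ h)⟩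
  have g1 := harris2 ok (Arm_incr S (2 * m)) (B := Circ m ((2 * m : ℕ) : ℤ))
    (fun F G h _ hF => hF.mono h) ha0 (by positivity) e1.ge c1
  have g2 := harris2 ok (S := S) (A := fun F => Arm (2 * m) ((trl (-x1) (-x2)).mp F))
    (B := fun F => Circ m ((2 * m : ℕ) : ℤ) ((trl (-x1) (-x2)).mp F))
    (fun F G h _ hF => hF.mono (LSym.mp_mono _ h)) (fun F G h _ hF => hF.mono (LSym.mp_mono _ h))
    ha0 (by positivity) e2.ge c2
  have g3 := harris2 ok i1 i2 (by positivity) (by positivity) g1 g2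
  have g4 := harris2 ok (LRc_incr S (min 0 x1 - 2 * m) (max 0 x1 + 2 * m) (-m) m)
    (TBc_incr S (x1 - m) (x1 + m) (min 0 x2 - 2 * m) (max 0 x2 + 2 * m)) hpos hpos e5 e6
  exact harris2 ok (fun F G h h' hF => ⟨i1 F G h h' hF.1, i2 F G h h' hF.2⟩)
    (fun F G h _ hF => ⟨hF.1.mono h, hF.2.mono h⟩) (by positivity) (by positivity) g3 g4

/-- Lower bound for the two-point function, inside a box, at and below the critical point. -/
theorem tp_lower : ∃ c C : ℝ, 0 < c ∧ 0 < C ∧ ∀ (p : ℝ) (r : ℕ) (x1 x2 : ℤ), 1/4 ≤ p →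
    p ≤ 1/2 → 1 ≤ r → |x1| ≤ r → |x2| ≤ r →
    c * (r:ℝ)^(-(5/24) : ℝ) * Real.exp (-(C * (r * (1/2 - p)^(4/3 : ℝ)))) ≤
      Pr (fun _ => p) (boxE (3 * r)) (TP (x1, x2)) := by
  obtain ⟨κ, a, C, hκ, ha, hC, hG⟩ := nearG
  obtain ⟨L, hL⟩ : ∃ L : ℝ, L = Real.log (1 / κ) := ⟨_, rfl⟩
  have hL0 : 0 ≤ L := by
    obtain ⟨m, -, -, hW, -⟩ := hG (1/2) 1 (by norm_num) le_rfl le_rfl
    rw [hL]
    apply Real.log_nonneg
    rw [le_div_iff₀ hκ]
    linarith [hW.kle]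
  refine ⟨(a * (2:ℝ)^(-(5/48) : ℝ) * κ^4)^2 * (κ^2 * Real.exp (-(20 * L))), 20 * L * C + 1,
    by positivity, by positivity, ?_⟩
  intro p r x1 x2 hp hp1 hr hx1 hx2
  obtain ⟨m, hm, hmr, hW, harm, hcase⟩ := hG p r hp hp1 hr
  have h0 : 0 ≤ p := by linarith
  have h1 : p ≤ 1 := by linarith
  have hs0 : 0 ≤ 1/2 - p := by linarith
  obtain ⟨H, hH⟩ : ∃ H : ℝ, H = (1/2 - p)^(4/3 : ℝ) := ⟨_, rfl⟩
  have hH0 : 0 ≤ H := by rw [hH]; positivity
  rw [← hH] at hcase ⊢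
  have hr0 : (0:ℝ) < r := by exact_mod_cast hr
  have hm0 : (0:ℝ) < m := by exact_mod_cast hm
  have hmr' : (m:ℝ) ≤ r := by exact_mod_cast hmr
  have h2 := pr_conn hW hm hmr hx1 hx2
  rw [← hL] at h2
  have h3 : Pr (fun _ => p) (boxE (3 * r)) (Conn m x1 x2) ≤
      Pr (fun _ => p) (boxE (3 * r)) (TP (x1, x2)) :=
    Pr_mono (okq h0 h1) (fun F _ h => tp_of_conn hm h)
  refine le_trans ?_ (h2.trans h3)
  have h4 : a * (2:ℝ)^(-(5/48) : ℝ) * (r:ℝ)^(-(5/48) : ℝ) ≤ arm p (2 * m) := by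
    refine le_trans ?_ (harm (2 * m) (by omega) (by omega))
    rw [mul_assoc]
    apply mul_le_mul_of_nonneg_left _ ha.le
    push_cast
    rw [Real.mul_rpow (by norm_num) hm0.le]
    apply mul_le_mul_of_nonneg_left _ (by positivity)
    exact Real.rpow_le_rpow_of_nonpos hm0 hmr' (by norm_num)
  have h5 : (r:ℝ) / m ≤ 1 + C * (r * H) := by
    rw [div_le_iff₀ hm0]
    rcases hcase with h6 | h6
    · rw [h6]
      have : 0 ≤ C * (r * H) * (r:ℝ) := by positivity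
      nlinarith
    · have h7 : (r:ℝ) * 1 ≤ r * (C * (m * H)) := mul_le_mul_of_nonneg_left h6 hr0.le
      nlinarith
  have h6 : Real.exp (-(10 * L)) * Real.exp (-(10 * L * (C * (r * H)))) ≤
      Real.exp (-(2 * L) * (((5 * r : ℕ) : ℝ) / m)) := by
    rw [← Real.exp_add]
    apply Real.exp_le_exp.mpr
    push_cast
    have h7 : 10 * L * ((r:ℝ) / m) ≤ 10 * L * (1 + C * (r * H)) :=
      mul_le_mul_of_nonneg_left h5 (by positivity)
    have e : -(2 * L) * (5 * (r:ℝ) / m) = -(10 * L * ((r:ℝ) / m)) := by ring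
    rw [e]
    linarith
  have e1 : (r:ℝ)^(-(5/24) : ℝ) = (r:ℝ)^(-(5/48) : ℝ) * (r:ℝ)^(-(5/48) : ℝ) := by
    rw [← Real.rpow_add hr0]; norm_num
  have h7 : (a * (2:ℝ)^(-(5/48) : ℝ) * (r:ℝ)^(-(5/48) : ℝ)) * κ^4 ≤ arm p (2 * m) * κ^4 :=
    mul_le_mul_of_nonneg_right h4 (by positivity)
  have h8 : κ * (Real.exp (-(10 * L)) * Real.exp (-(10 * L * (C * (r * H))))) ≤
      κ * Real.exp (-(2 * L) * (((5 * r : ℕ) : ℝ) / m)) := mul_le_mul_of_nonneg_left h6 hκ.le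
  have h9 := mul_le_mul (mul_le_mul h7 h7 (by positivity)
    (mul_nonneg (arm_nonneg h0 h1 _) (by positivity)))
    (mul_le_mul h8 h8 (by positivity) (by positivity)) (by positivity)
    (by have := arm_nonneg h0 h1 (2 * m); positivity)
  refine le_trans ?_ h9
  have e2 : Real.exp (-(20 * L)) = Real.exp (-(10 * L)) * Real.exp (-(10 * L)) := by
    rw [← Real.exp_add]; congr 1; ring
  have e3 : Real.exp (-((20 * L * C + 1) * (r * H))) ≤
      Real.exp (-(10 * L * (C * (r * H)))) * Real.exp (-(10 * L * (C * (r * H)))) := by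
    rw [← Real.exp_add]
    apply Real.exp_le_exp.mpr
    have : 0 ≤ (r:ℝ) * H := by positivity
    nlinarith
  rw [e1, e2]
  calc (a * (2:ℝ)^(-(5/48) : ℝ) * κ^4)^2 * (κ^2 * (Real.exp (-(10 * L)) * Real.exp (-(10 * L)))) *
        ((r:ℝ)^(-(5/48) : ℝ) * (r:ℝ)^(-(5/48) : ℝ)) *
        Real.exp (-((20 * L * C + 1) * (r * H)))
      ≤ (a * (2:ℝ)^(-(5/48) : ℝ) * κ^4)^2 *
        (κ^2 * (Real.exp (-(10 * L)) * Real.exp (-(10 * L)))) *
        ((r:ℝ)^(-(5/48) : ℝ) * (r:ℝ)^(-(5/48) : ℝ)) *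
        (Real.exp (-(10 * L * (C * (r * H)))) * Real.exp (-(10 * L * (C * (r * H))))) :=
      mul_le_mul_of_nonneg_left e3 (by positivity)
    _ = _ := by ring

/-- A closed dual circuit in a thin annulus. -/
theorem pr_blk_ge {p κ : ℝ} {m n : ℕ} (hW : H12S.Win (1 - p) κ (4 * m)) (hm : 1 ≤ m)
    (hmn : m ≤ n) :
    (κ * Real.exp (-(2 * Real.log (1 / κ)) * (((7 * n : ℕ) : ℝ) / m)))^4 ≤
      Pr (fun _ => p) (annE n (n + m + 1)) (Blk n ((n + m + 1 : ℕ) : ℤ)) := by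
  have h0 : 0 ≤ 1 - p := by linarith [hW.lo]
  have h1 : 1 - p ≤ 1 := by linarith [hW.hi, hW.lo]
  have h0' : 0 ≤ p := by linarith [hW.hi]
  have h1' : p ≤ 1 := by linarith [hW.lo]
  have hk := hW.kpos
  have ok := okq h0' h1'
  obtain ⟨s1, s2, s3, s4⟩ := ann_sub (n := n) (m := n + m + 1) (by omega)
  obtain ⟨d, hd⟩ : ∃ d : ℝ, d = κ * Real.exp (-(2 * Real.log (1 / κ)) * (((7 * n : ℕ) : ℝ) / m)) :=
    ⟨_, rfl⟩
  have hd0 : 0 ≤ d := by rw [hd]; positivity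
  obtain ⟨T, hT⟩ : ∃ T : ℤ, T = ((n + m + 1 : ℕ) : ℤ) := ⟨_, rfl⟩
  rw [← hd]
  rw [← hT] at s1 s2 s3 s4 ⊢
  obtain ⟨S, hS⟩ : ∃ S : Finset Edg, S = annE n (n + m + 1) := ⟨_, rfl⟩
  rw [← hS] at s1 s2 s3 s4 ⊢
  have hT' : T = n + m + 1 := by rw [hT]; push_cast; ring
  have key : d ≤ 1 - hh p ((m:ℤ) + 1) (2 * T) := by
    rw [hh_dual (q := p) (w := (m:ℤ) + 1) (h := 2 * T) (by omega) (by omega)]
    have h2 := hh_exp (hW.anti (show m ≤ 4 * m by omega)) hm (show 1 ≤ 7 * n by omega)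
    rw [← hd] at h2
    have h3 : hh (1 - p) ((7 * n : ℕ) : ℤ) m ≤ hh (1 - p) (2 * T + 1) ((m:ℤ) + 1 - 1) := by
      apply hh_mono h0 h1 <;> (push_cast; omega)
    linarith
  have q1 : Pr (fun _ => p) S (LRc n T (-T) T) = hh p ((m:ℤ) + 1) (2 * T) := by
    rw [pr_LRc p s1]; congr 1 <;> (rw [hT']; ring)
  have q2 : Pr (fun _ => p) S (LRc (-T) (-n) (-T) T) = hh p ((m:ℤ) + 1) (2 * T) := by
    rw [pr_LRc p s2]; congr 1 <;> (rw [hT']; ring)
  have q3 : Pr (fun _ => p) S (TBc (-T) T n T) = hh p ((m:ℤ) + 1) (2 * T) := by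
    rw [pr_TBc p s3]; congr 1 <;> (rw [hT']; ring)
  have q4 : Pr (fun _ => p) S (TBc (-T) T (-T) (-n)) = hh p ((m:ℤ) + 1) (2 * T) := by
    rw [pr_TBc p s4]; congr 1 <;> (rw [hT']; ring)
  have g1 := Pr_harris_dd ok (LRc_incr S n T (-T) T) (LRc_incr S (-T) (-n) (-T) T)
  have g2 := Pr_harris_dd ok (TBc_incr S (-T) T n T) (TBc_incr S (-T) T (-T) (-n))
  have g3 := Pr_harris_dd ok (S := S) (A := fun F => LRc n T (-T) T F ∨ LRc (-T) (-n) (-T) T F)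
    (B := fun F => TBc (-T) T n T F ∨ TBc (-T) T (-T) (-n) F)
    (fun F G h h' hF => hF.imp (LRc_incr S _ _ _ _ F G h h') (LRc_incr S _ _ _ _ F G h h'))
    (fun F G h h' hF => hF.imp (TBc_incr S _ _ _ _ F G h h') (TBc_incr S _ _ _ _ F G h h'))
  have e1 : Pr (fun _ => p) S (fun F => ¬ LRc n T (-T) T F ∧ ¬ LRc (-T) (-n) (-T) T F) =
      1 - Pr (fun _ => p) S (fun F => LRc n T (-T) T F ∨ LRc (-T) (-n) (-T) T F) := by
    rw [← Pr_not]
    exact Pr_congr (fun F _ => by tauto)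
  have e2 : Pr (fun _ => p) S (fun F => ¬ TBc (-T) T n T F ∧ ¬ TBc (-T) T (-T) (-n) F) =
      1 - Pr (fun _ => p) S (fun F => TBc (-T) T n T F ∨ TBc (-T) T (-T) (-n) F) := by
    rw [← Pr_not]
    exact Pr_congr (fun F _ => by tauto)
  rw [q1, q2, e1] at g1
  rw [q3, q4, e2] at g2
  have g4 : d * d ≤ 1 - Pr (fun _ => p) S (fun F => LRc n T (-T) T F ∨ LRc (-T) (-n) (-T) T F) :=
    (mul_le_mul key key hd0 (hd0.trans key)).trans g1
  have g5 : d * d ≤ 1 - Pr (fun _ => p) S (fun F => TBc (-T) T n T F ∨ TBc (-T) T (-T) (-n) F) :=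
    (mul_le_mul key key hd0 (hd0.trans key)).trans g2
  have g6 := (mul_le_mul g4 g5 (by positivity) ((mul_nonneg hd0 hd0).trans g4)).trans g3
  calc d^4 = d * d * (d * d) := by ring
    _ ≤ _ := g6

/-- Closed dual circuits above the critical point. -/
theorem blk_lower : ∃ c C : ℝ, 0 < c ∧ 0 < C ∧ ∀ (p : ℝ) (n : ℕ), 1/2 ≤ p → p ≤ 3/4 → 1 ≤ n →
    ∃ k : ℕ, n < k ∧ c * Real.exp (-(C * (n * (p - 1/2)^(4/3 : ℝ)))) ≤
      Pr (fun _ => p) (annE n k) (Blk n (k : ℤ)) := by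
  obtain ⟨κ, a, C, hκ, ha, hC, hG⟩ := nearG
  obtain ⟨L, hL⟩ : ∃ L : ℝ, L = Real.log (1 / κ) := ⟨_, rfl⟩
  have hL0 : 0 ≤ L := by
    obtain ⟨m, -, -, hW, -⟩ := hG (1/2) 1 (by norm_num) le_rfl le_rfl
    rw [hL]
    apply Real.log_nonneg
    rw [le_div_iff₀ hκ]
    linarith [hW.kle]
  refine ⟨κ^4 * Real.exp (-(56 * L)), 56 * L * C + 1, by positivity, by positivity, ?_⟩
  intro p n hp hp1 hn
  obtain ⟨m, hm, hmn, hW, -, hcase⟩ := hG (1 - p) n (by linarith) (by linarith) hn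
  refine ⟨n + m + 1, by omega, ?_⟩
  have hs0 : 0 ≤ p - 1/2 := by linarith
  have es : 1/2 - (1 - p) = p - 1/2 := by ring
  rw [es] at hcase
  obtain ⟨H, hH⟩ : ∃ H : ℝ, H = (p - 1/2)^(4/3 : ℝ) := ⟨_, rfl⟩
  have hH0 : 0 ≤ H := by rw [hH]; positivity
  rw [← hH] at hcase ⊢
  have hn0 : (0:ℝ) < n := by exact_mod_cast hn
  have hm0 : (0:ℝ) < m := by exact_mod_cast hm
  have h2 := pr_blk_ge hW hm hmn
  rw [← hL] at h2
  refine le_trans ?_ h2
  have h5 : (n:ℝ) / m ≤ 1 + C * (n * H) := by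
    rw [div_le_iff₀ hm0]
    rcases hcase with h6 | h6
    · rw [h6]
      have : 0 ≤ C * (n * H) * (n:ℝ) := by positivity
      nlinarith
    · have h7 : (n:ℝ) * 1 ≤ n * (C * (m * H)) := mul_le_mul_of_nonneg_left h6 hn0.le
      nlinarith
  have e4 : (κ * Real.exp (-(2 * L) * (((7 * n : ℕ) : ℝ) / m)))^4 =
      κ^4 * Real.exp (-(56 * L * ((n:ℝ) / m))) := by
    rw [mul_pow, ← Real.exp_nat_mul]
    congr 2
    push_cast
    ring
  rw [e4, mul_assoc, ← Real.exp_add]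
  apply mul_le_mul_of_nonneg_left _ (by positivity)
  apply Real.exp_le_exp.mpr
  have h7 : 56 * L * ((n:ℝ) / m) ≤ 56 * L * (1 + C * (n * H)) :=
    mul_le_mul_of_nonneg_left h5 (by positivity)
  have h8 : 0 ≤ (n:ℝ) * H := by positivity
  nlinarith

end T213
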