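import Pool.Agent.Run7.h213.T.Core
import Pool.Agent.Y554.NC.Theta

/-!
Upper bounds for the truncated two-point function and for the radius of finite clusters.
-/

set_option maxHeartbeats 1000000

namespace T213

open H31K H974 Finset Pool.Agent.W424.NC MeasureTheory

/-- The one-arm probability above the critical point, up to the correlation length. -/
theorem arm_sup {A : ℝ} (hA : 0 < A) : ∃ C : ℝ, 0 < C ∧ ∀ (p : ℝ) (n : ℕ), 1/2 ≤ p → p ≤ 1 →
    1 ≤ n → (n:ℝ) * (p - 1/2)^(4/3 : ℝ) ≤ A → arm p n ≤ C * (n:ℝ)^(-(5/48) : ℝ) := by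
  obtain ⟨κ, β, hκ, hβ, hst⟩ := armS
  obtain ⟨cc, Cc, hcc, hCc, harm⟩ := Pool.Agent.W424.NC.arm_crit
  obtain ⟨B, hB⟩ : ∃ B : ℝ, B = β^(4/3 : ℝ) := ⟨_, rfl⟩
  have hB0 : 0 < B := by rw [hB]; positivity
  refine ⟨3 * Cc + 3 * Cc * (B / (2 * A))^(-(5/48) : ℝ) + (B / A)^(-(5/48) : ℝ), by positivity, ?_⟩
  intro p n hp hp1 hn hnA
  have hn0 : (0:ℝ) < n := by exact_mod_cast hn
  have hnp : 0 < (n:ℝ)^(-(5/48) : ℝ) := by positivity
  have t1 : 0 ≤ 3 * Cc * (n:ℝ)^(-(5/48) : ℝ) := by positivity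
  have t2 : 0 ≤ 3 * Cc * (B / (2 * A))^(-(5/48) : ℝ) * (n:ℝ)^(-(5/48) : ℝ) := by positivity
  have t3 : 0 ≤ (B / A)^(-(5/48) : ℝ) * (n:ℝ)^(-(5/48) : ℝ) := by positivity
  have esum : (3 * Cc + 3 * Cc * (B / (2 * A))^(-(5/48) : ℝ) + (B / A)^(-(5/48) : ℝ)) *
      (n:ℝ)^(-(5/48) : ℝ) = 3 * Cc * (n:ℝ)^(-(5/48) : ℝ) +
      3 * Cc * (B / (2 * A))^(-(5/48) : ℝ) * (n:ℝ)^(-(5/48) : ℝ) +
      (B / A)^(-(5/48) : ℝ) * (n:ℝ)^(-(5/48) : ℝ) := by ring
  rw [esum]
  obtain ⟨s, hs⟩ : ∃ s : ℝ, s = p - 1/2 := ⟨_, rfl⟩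
  have hs0 : 0 ≤ s := by rw [hs]; linarith
  rw [← hs] at hnA
  have hwinn : ∀ k : ℕ, 1 ≤ k → s ≤ β * (k:ℝ)^(-(3/4) : ℝ) →
      arm p k ≤ 3 * Cc * (k:ℝ)^(-(5/48) : ℝ) := by
    intro k hk hsk
    obtain ⟨-, h5, -⟩ := hst k hk p (by rw [← hs, abs_of_nonneg hs0]; exact hsk)
    have := (harm k hk).2
    calc arm p k ≤ 3 * arm (1/2) k := h5
      _ ≤ 3 * (Cc * (k:ℝ)^(-(5/48) : ℝ)) := by linarith
      _ = _ := by ring
  rcases hs0.eq_or_lt with h0 | hpos
  · have := hwinn n hn (by rw [← h0]; positivity)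
    linarith
  · rcases lt_or_ge β s with hbs | hbs
    · have h2 : B ≤ s^(4/3 : ℝ) := by
        rw [hB]; exact Real.rpow_le_rpow hβ.le hbs.le (by norm_num)
      have h3 : n ≤ (B / A)⁻¹ := by
        rw [inv_div, le_div_iff₀ hB0]
        exact (mul_le_mul_of_nonneg_left h2 hn0.le).trans hnA
      have h4 : 1 ≤ (B / A)^(-(5/48) : ℝ) * (n:ℝ)^(-(5/48) : ℝ) := by
        rw [← Real.mul_rpow (by positivity) hn0.le]
        apply Real.one_le_rpow_of_pos_of_le_one_of_nonpos (by positivity) _ (by norm_num)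
        calc B / A * n ≤ B / A * (B / A)⁻¹ := mul_le_mul_of_nonneg_left h3 (by positivity)
          _ = 1 := mul_inv_cancel₀ (by positivity)
      have := arm_le_one (q := p) (by linarith) hp1 n
      linarith
    · obtain ⟨k, hk1, hwin, hkx, hxk⟩ := Pool.Agent.Y554.NC.scale_exists hβ hpos hbs
      have hk0 : (0:ℝ) < k := by exact_mod_cast hk1
      rcases le_total n k with hnk | hkn
      · have h5 : s ≤ β * (n:ℝ)^(-(3/4) : ℝ) := by
          refine hwin.trans (mul_le_mul_of_nonneg_left ?_ hβ.le)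
          exact Real.rpow_le_rpow_of_nonpos hn0 (by exact_mod_cast hnk) (by norm_num)
        have := hwinn n hn h5
        linarith
      · have h5 := (arm_anti (q := p) (by linarith) hp1 hkn).trans (hwinn k hk1 hwin)
        have h6 : B / (2 * A) * n ≤ k := by
          rw [div_mul_eq_mul_div, div_le_iff₀ (by positivity)]
          have h7 : (β/s)^(4/3 : ℝ) = B / s^(4/3 : ℝ) := by
            rw [Real.div_rpow hβ.le hpos.le, hB]
          rw [h7, div_le_iff₀ (by positivity)] at hxk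
          calc B * n ≤ (2 * k * s^(4/3 : ℝ)) * n := mul_le_mul_of_nonneg_right hxk hn0.le
            _ = 2 * k * (n * s^(4/3 : ℝ)) := by ring
            _ ≤ 2 * k * A := mul_le_mul_of_nonneg_left hnA (by positivity)
            _ = k * (2 * A) := by ring
        have h7 : (k:ℝ)^(-(5/48) : ℝ) ≤ (B / (2 * A))^(-(5/48) : ℝ) * (n:ℝ)^(-(5/48) : ℝ) := by
          rw [← Real.mul_rpow (by positivity) hn0.le]
          exact Real.rpow_le_rpow_of_nonpos (by positivity) h6 (by norm_num)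
        have h8 : 3 * Cc * (k:ℝ)^(-(5/48) : ℝ) ≤
            3 * Cc * ((B / (2 * A))^(-(5/48) : ℝ) * (n:ℝ)^(-(5/48) : ℝ)) :=
          mul_le_mul_of_nonneg_left h7 (by positivity)
        have e : 3 * Cc * ((B / (2 * A))^(-(5/48) : ℝ) * (n:ℝ)^(-(5/48) : ℝ)) =
            3 * Cc * (B / (2 * A))^(-(5/48) : ℝ) * (n:ℝ)^(-(5/48) : ℝ) := by ring
        linarith

theorem choose_j {N n : ℕ} (hN : 1 ≤ N) (h : 16 * N < n) :
    ∃ j : ℕ, 2 ≤ j ∧ 4 * (2^j * N) ≤ n ∧ (n:ℝ) / N / 8 ≤ (2:ℝ)^j := by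
  obtain ⟨q, hq⟩ : ∃ q : ℕ, q = n / (4 * N) := ⟨_, rfl⟩
  have hq4 : 4 ≤ q := by
    rw [hq, Nat.le_div_iff_mul_le (by omega)]
    omega
  refine ⟨Nat.log 2 q, ?_, ?_, ?_⟩
  · exact Nat.le_log_of_pow_le (by norm_num) (by omega)
  · have h1 := Nat.pow_log_le_self 2 (show q ≠ 0 by omega)
    have h2 : q * (4 * N) ≤ n := by rw [hq]; exact Nat.div_mul_le_self n (4*N)
    calc 4 * (2 ^ Nat.log 2 q * N) = 2 ^ Nat.log 2 q * (4 * N) := by ring
      _ ≤ q * (4 * N) := Nat.mul_le_mul_right _ h1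
      _ ≤ n := h2
  · have h1 := Nat.lt_pow_succ_log_self (b := 2) (by norm_num) q
    have h2 : n < 4 * N * (q + 1) := by
      have := Nat.lt_mul_div_succ n (show 0 < 4 * N by omega)
      rw [← hq] at this
      exact this
    have h3 : q + 1 ≤ 2 ^ (Nat.log 2 q + 1) := h1
    have h4 : n ≤ 8 * N * 2 ^ Nat.log 2 q := by
      calc n ≤ 4 * N * (q + 1) := h2.le
        _ ≤ 4 * N * 2 ^ (Nat.log 2 q + 1) := Nat.mul_le_mul_left _ h3
        _ = 8 * N * 2 ^ Nat.log 2 q := by rw [pow_succ]; ring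
    have hN0 : (0:ℝ) < N := by exact_mod_cast hN
    rw [div_div, div_le_iff₀ (by positivity)]
    have h5 : (n:ℝ) ≤ 8 * N * 2 ^ Nat.log 2 q := by exact_mod_cast h4
    linarith

theorem ana {a E t n N : ℝ} (ha : 0 ≤ a) (ha1 : a ≤ 1) (hN : 0 < N) (hn : N ≤ n) (ht : 0 ≤ t)
    (hE : N * t ≤ E) (hE0 : 0 < E) :
    N^(-a) * Real.exp (-(n / N / 8)) ≤ 16 * (n^(-a) * Real.exp (-(1 / (16 * E) * (n * t)))) := by
  have hn0 : 0 < n := by linarith
  obtain ⟨y, hy⟩ : ∃ y : ℝ, y = n / N := ⟨_, rfl⟩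
  have hy1 : 1 ≤ y := by rw [hy, le_div_iff₀ hN, one_mul]; exact hn
  have e1 : N^(-a) = y^a * n^(-a) := by
    rw [hy, Real.div_rpow hn0.le hN.le, Real.rpow_neg hn0.le, Real.rpow_neg hN.le]
    have : 0 < n^a := by positivity
    have : 0 < N^a := by positivity
    field_simp
  have h1 : y^a ≤ y := by
    calc y^a ≤ y^(1:ℝ) := Real.rpow_le_rpow_of_exponent_le hy1 ha1
      _ = y := Real.rpow_one y
  have h2 : y / 16 ≤ Real.exp (y / 16) := by
    have := Real.add_one_le_exp (y / 16)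
    linarith
  have h3 : y * Real.exp (-(y / 8)) ≤ 16 * Real.exp (-(y / 16)) := by
    have e2 : Real.exp (-(y / 8)) = Real.exp (-(y / 16)) * Real.exp (-(y / 16)) := by
      rw [← Real.exp_add]; congr 1; ring
    have e3 : Real.exp (y / 16) * Real.exp (-(y / 16)) = 1 := by
      rw [← Real.exp_add, add_neg_cancel, Real.exp_zero]
    have h4 : 0 < Real.exp (-(y / 16)) := Real.exp_pos _
    have h5 : y / 16 * Real.exp (-(y / 16)) ≤ 1 := by
      rw [← e3]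
      exact mul_le_mul_of_nonneg_right h2 h4.le
    rw [e2]
    nlinarith
  have h4 : Real.exp (-(y / 16)) ≤ Real.exp (-(1 / (16 * E) * (n * t))) := by
    apply Real.exp_le_exp.mpr
    have h5 : n * t ≤ y * E := by
      calc n * t = y * (N * t) := by rw [hy]; field_simp
        _ ≤ y * E := mul_le_mul_of_nonneg_left hE (by linarith)
    have h6 : 1 / (16 * E) * (n * t) ≤ 1 / (16 * E) * (y * E) :=
      mul_le_mul_of_nonneg_left h5 (by positivity)
    have e : 1 / (16 * E) * (y * E) = y / 16 := by field_simp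
    linarith
  have hnn : 0 < n^(-a) := by positivity
  rw [e1, ← hy]
  calc y^a * n^(-a) * Real.exp (-(y / 8)) ≤ y * n^(-a) * Real.exp (-(y / 8)) := by
        apply mul_le_mul_of_nonneg_right _ (Real.exp_pos _).le
        exact mul_le_mul_of_nonneg_right h1 hnn.le
    _ = n^(-a) * (y * Real.exp (-(y / 8))) := by ring
    _ ≤ n^(-a) * (16 * Real.exp (-(y / 16))) := mul_le_mul_of_nonneg_left h3 hnn.le
    _ ≤ n^(-a) * (16 * Real.exp (-(1 / (16 * E) * (n * t)))) := by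
        apply mul_le_mul_of_nonneg_left _ hnn.le
        linarith
    _ = _ := by ring

/-- Scale above the critical point. -/
theorem farN_sup : ∃ E : ℝ, 1 ≤ E ∧ ∀ p : ℝ, 1/2 < p → p ≤ 1 → ∃ N : ℕ, 2 ≤ N ∧
    (N:ℝ) * (p - 1/2)^(4/3 : ℝ) ≤ E ∧ eps p N ≤ 1/100 := by
  obtain ⟨E, hE, h⟩ := farN
  refine ⟨E, hE, fun p hp hp1 => ?_⟩
  obtain ⟨N, h1, h2, h3, h4⟩ := h (1 - p) (by linarith) (by linarith)
  have e1 : 1/2 - (1 - p) = p - 1/2 := by ring
  have e2 : 1 - (1 - p) = p := by ring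
  rw [e1] at h2
  rw [e2] at h4
  exact ⟨N, h1, h2, h4⟩

theorem rpow_quarter {r r' : ℝ} {a : ℝ} (hr : 0 < r) (h : r / 4 ≤ r') (ha : 0 ≤ a) (ha1 : a ≤ 1) :
    r'^(-a) ≤ 4 * r^(-a) := by
  calc r'^(-a) ≤ (r / 4)^(-a) :=
        Real.rpow_le_rpow_of_nonpos (by positivity) h (by linarith)
    _ = (4:ℝ)^a * r^(-a) := by
        rw [Real.div_rpow hr.le (by norm_num), Real.rpow_neg (by norm_num : (0:ℝ) ≤ 4),
          div_inv_eq_mul, mul_comm]
    _ ≤ 4 * r^(-a) := by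
        apply mul_le_mul_of_nonneg_right _ (by positivity)
        calc (4:ℝ)^a ≤ 4^(1:ℝ) := Real.rpow_le_rpow_of_exponent_le (by norm_num) ha1
          _ = 4 := Real.rpow_one 4

theorem exp_third {x : ℝ} (h : x ≤ 1) : (1/3 : ℝ) ≤ Real.exp (-x) := by
  have h1 : Real.exp (-1) ≤ Real.exp (-x) := Real.exp_le_exp.mpr (by linarith)
  have h5 : (1/3 : ℝ) ≤ Real.exp (-1) := by
    rw [Real.exp_neg, one_div]
    apply inv_anti₀ (Real.exp_pos _)
    have := Real.exp_one_lt_d9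
    linarith
  linarith

/-- Small distances. -/
theorem tiny {r : ℕ} (hr : 1 ≤ r) (h : r < 3) {a : ℝ} (ha : 0 ≤ a) (ha1 : a ≤ 1) :
    1 ≤ 3 * (r:ℝ)^(-a) := by
  have hr0 : (0:ℝ) < r := by exact_mod_cast hr
  have hr1 : (1:ℝ) ≤ r := by exact_mod_cast hr
  have hr3 : (r:ℝ) ≤ 3 := by exact_mod_cast h.le
  have h1 : (r:ℝ)^a ≤ 3 := by
    calc (r:ℝ)^a ≤ (r:ℝ)^(1:ℝ) := Real.rpow_le_rpow_of_exponent_le hr1 ha1
      _ = r := Real.rpow_one _
      _ ≤ 3 := hr3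
  rw [Real.rpow_neg hr0.le, ← div_eq_mul_inv, le_div_iff₀ (by positivity)]
  linarith

/-- Upper bound for the truncated two-point function above the critical point. -/
theorem tauf_upper_sup : ∃ c C : ℝ, 0 < c ∧ 0 < C ∧ ∀ p : unitInterval, (1/2 : ℝ) < p →
    ∀ (x1 x2 : ℤ) (r : ℕ), 1 ≤ r → ((r:ℤ) ≤ |x1| ∨ (r:ℤ) ≤ |x2|) →
    (bondLaw p).real {ω | (x1, x2) ∈ cluster0 ω ∧ (cluster0 ω).Finite} ≤
      C * (r:ℝ)^(-(5/24) : ℝ) * Real.exp (-(c * (r * ((p:ℝ) - 1/2)^(4/3 : ℝ)))) := by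
  obtain ⟨E, hE, hfar⟩ := farN_sup
  obtain ⟨D, hD, hsup⟩ := arm_sup (A := 16 * E) (by linarith)
  refine ⟨1 / (16 * E), 9 + 48 * D^2, by positivity, by positivity, ?_⟩
  intro p hp x1 x2 r hr hx
  have h0 := p.2.1
  have h1 := p.2.2
  obtain ⟨N, hN, hNE, heps⟩ := hfar p hp h1
  obtain ⟨t, ht⟩ : ∃ t : ℝ, t = ((p:ℝ) - 1/2)^(4/3 : ℝ) := ⟨_, rfl⟩
  have ht0 : 0 ≤ t := by
    rw [ht]; exact Real.rpow_nonneg (by linarith) _
  rw [← ht] at hNE ⊢
  have hr0 : (0:ℝ) < r := by exact_mod_cast hr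
  have hN0 : (0:ℝ) < N := by
    have : 0 < N := by omega
    exact_mod_cast this
  have hE0 : 0 < E := by linarith
  have hrp : 0 < (r:ℝ)^(-(5/24) : ℝ) := by positivity
  rcases le_or_gt r (16 * N) with hle | hgt
  · have hle' : (r:ℝ) ≤ 16 * N := by exact_mod_cast hle
    have hrt : (r:ℝ) * t ≤ 16 * E := by
      calc (r:ℝ) * t ≤ (16 * N) * t := mul_le_mul_of_nonneg_right hle' ht0
        _ = 16 * (N * t) := by ring
        _ ≤ 16 * E := by linarith
    have hexp : (1/3 : ℝ) ≤ Real.exp (-(1 / (16 * E) * (r * t))) := by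
      apply exp_third
      calc 1 / (16 * E) * (r * t) ≤ 1 / (16 * E) * (16 * E) :=
            mul_le_mul_of_nonneg_left hrt (by positivity)
        _ = 1 := by field_simp
    have hgoal : ∀ z : ℝ, z ≤ (3 + 16 * D^2) * (r:ℝ)^(-(5/24) : ℝ) →
        z ≤ (9 + 48 * D^2) * (r:ℝ)^(-(5/24) : ℝ) * Real.exp (-(1 / (16 * E) * (r * t))) := by
      intro z hz
      have h3 : (9 + 48 * D^2) * (r:ℝ)^(-(5/24) : ℝ) * (1/3) ≤
          (9 + 48 * D^2) * (r:ℝ)^(-(5/24) : ℝ) * Real.exp (-(1 / (16 * E) * (r * t))) :=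
        mul_le_mul_of_nonneg_left hexp (by positivity)
      have e : (9 + 48 * D^2) * (r:ℝ)^(-(5/24) : ℝ) * (1/3) =
          (3 + 16 * D^2) * (r:ℝ)^(-(5/24) : ℝ) := by ring
      linarith
    apply hgoal
    have hle1 : (bondLaw p).real {ω | (x1, x2) ∈ cluster0 ω ∧ (cluster0 ω).Finite} ≤
        tau p (x1, x2) := by
      unfold tau
      exact measureReal_mono (fun ω hω => hω.1) (measure_ne_top _ _)
    rcases lt_or_ge r 3 with h3 | h3
    · have h4 := tau_le_one p (x1, x2)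
      have h5 := tiny hr h3 (a := 5/24) (by norm_num) (by norm_num)
      have h6 : 0 ≤ 16 * D^2 * (r:ℝ)^(-(5/24) : ℝ) := by positivity
      linarith
    · obtain ⟨k, hk⟩ : ∃ k : ℕ, k = (r - 1) / 2 := ⟨_, rfl⟩
      have hk1 : 1 ≤ k := by omega
      have hk2 : 2 * k < r := by omega
      have hk4 : r ≤ 4 * k := by omega
      have h4 : tau p (x1, x2) ≤ (arm p k)^2 := by
        apply tau_le_arm_sq
        rcases hx with h | h
        · left; simp only; omega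
        · right; simp only; omega
      have hk0 : (0:ℝ) < k := by exact_mod_cast hk1
      have hkr : (k:ℝ) ≤ r := by exact_mod_cast (by omega : k ≤ r)
      have h5 : arm p k ≤ D * (k:ℝ)^(-(5/48) : ℝ) := by
        apply hsup p k hp.le h1 hk1
        rw [← ht]
        exact (mul_le_mul_of_nonneg_right hkr ht0).trans hrt
      have h6 : (k:ℝ)^(-(5/48) : ℝ) ≤ 4 * (r:ℝ)^(-(5/48) : ℝ) := by
        apply rpow_quarter hr0 _ (by norm_num) (by norm_num)
        have : (r:ℝ) ≤ 4 * k := by exact_mod_cast hk4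
        linarith
      have h7 : arm p k ≤ D * (4 * (r:ℝ)^(-(5/48) : ℝ)) :=
        h5.trans (mul_le_mul_of_nonneg_left h6 hD.le)
      have e1 : (r:ℝ)^(-(5/24) : ℝ) = (r:ℝ)^(-(5/48) : ℝ) * (r:ℝ)^(-(5/48) : ℝ) := by
        rw [← Real.rpow_add hr0]; norm_num
      have h8 : (arm p k)^2 ≤ (D * (4 * (r:ℝ)^(-(5/48) : ℝ)))^2 :=
        pow_le_pow_left₀ (arm_nonneg h0 h1 k) h7 2
      calc _ ≤ tau p (x1, x2) := hle1
        _ ≤ (arm p k)^2 := h4
        _ ≤ (D * (4 * (r:ℝ)^(-(5/48) : ℝ)))^2 := h8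
        _ = 16 * D^2 * (r:ℝ)^(-(5/24) : ℝ) := by rw [e1]; ring
        _ ≤ _ := by
          apply mul_le_mul_of_nonneg_right _ hrp.le
          linarith
  · obtain ⟨j, hj, hj4, hj8⟩ := choose_j (by omega) hgt
    have hN4 : 4 * N ≤ 2^j * N := by
      apply Nat.mul_le_mul_right
      calc 4 = 2^2 := rfl
        _ ≤ 2^j := Nat.pow_le_pow_right (by norm_num) hj
    have h4 := tauf_core p hN heps (x1 := x1) (x2 := x2) hj (by
      have h5 : 2 * (2^j * N) + 2 * N + 2 < r := by omega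
      have h6 : 2 * ((2^j * N : ℕ) : ℤ) + 2 * N + 2 < r := by exact_mod_cast h5
      rcases hx with h | h
      · left; omega
      · right; omega)
    have h5 : arm p N ≤ D * (N:ℝ)^(-(5/48) : ℝ) := by
      apply hsup p N hp.le h1 (by omega)
      rw [← ht]
      linarith
    have h6 : (arm p N)^2 ≤ D^2 * (N:ℝ)^(-(5/24) : ℝ) := by
      have e1 : (N:ℝ)^(-(5/24) : ℝ) = (N:ℝ)^(-(5/48) : ℝ) * (N:ℝ)^(-(5/48) : ℝ) := by
        rw [← Real.rpow_add hN0]; norm_num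
      rw [e1]
      calc (arm p N)^2 ≤ (D * (N:ℝ)^(-(5/48) : ℝ))^2 :=
            pow_le_pow_left₀ (arm_nonneg h0 h1 N) h5 2
        _ = _ := by ring
    have h7 := quarter_pow_le hj8
    have h8 := ana (a := 5/24) (by norm_num) (by norm_num) hN0
      (show (N:ℝ) ≤ r by exact_mod_cast (by omega : N ≤ r)) ht0 hNE hE0
    calc _ ≤ (arm p N)^2 * (1/4)^(2^j) := h4
      _ ≤ (D^2 * (N:ℝ)^(-(5/24) : ℝ)) * Real.exp (-((r:ℝ) / N / 8)) :=
          mul_le_mul h6 h7 (by positivity) (by positivity)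
      _ = D^2 * ((N:ℝ)^(-(5/24) : ℝ) * Real.exp (-((r:ℝ) / N / 8))) := by ring
      _ ≤ D^2 * (16 * ((r:ℝ)^(-(5/24) : ℝ) * Real.exp (-(1 / (16 * E) * (r * t))))) :=
          mul_le_mul_of_nonneg_left h8 (by positivity)
      _ = (16 * D^2) * (r:ℝ)^(-(5/24) : ℝ) * Real.exp (-(1 / (16 * E) * (r * t))) := by ring
      _ ≤ _ := by
          apply mul_le_mul_of_nonneg_right _ (Real.exp_pos _).le
          apply mul_le_mul_of_nonneg_right _ hrp.le
          nlinarith [sq_nonneg D]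

/-- Upper bound for the radius of finite clusters above the critical point. -/
theorem radf_upper_sup : ∃ c C : ℝ, 0 < c ∧ 0 < C ∧ ∀ p : unitInterval, (1/2 : ℝ) < p →
    ∀ n : ℕ, 1 ≤ n →
    (bondLaw p).real {ω | ω ∈ ArmE n ∧ (cluster0 ω).Finite} ≤
      C * (n:ℝ)^(-(5/48) : ℝ) * Real.exp (-(c * (n * ((p:ℝ) - 1/2)^(4/3 : ℝ)))) := by
  obtain ⟨E, hE, hfar⟩ := farN_sup
  obtain ⟨D, hD, hsup⟩ := arm_sup (A := 16 * E) (by linarith)
  refine ⟨1 / (16 * E), 16 * D, by positivity, by positivity, ?_⟩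
  intro p hp n hn
  have h0 := p.2.1
  have h1 := p.2.2
  obtain ⟨N, hN, hNE, heps⟩ := hfar p hp h1
  obtain ⟨t, ht⟩ : ∃ t : ℝ, t = ((p:ℝ) - 1/2)^(4/3 : ℝ) := ⟨_, rfl⟩
  have ht0 : 0 ≤ t := by
    rw [ht]; exact Real.rpow_nonneg (by linarith) _
  rw [← ht] at hNE ⊢
  have hn0 : (0:ℝ) < n := by exact_mod_cast hn
  have hN0 : (0:ℝ) < N := by
    have : 0 < N := by omega
    exact_mod_cast this
  have hE0 : 0 < E := by linarith
  have hnp : 0 < (n:ℝ)^(-(5/48) : ℝ) := by positivity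
  rcases le_or_gt n (16 * N) with hle | hgt
  · have hle' : (n:ℝ) ≤ 16 * N := by exact_mod_cast hle
    have hnt : (n:ℝ) * t ≤ 16 * E := by
      calc (n:ℝ) * t ≤ (16 * N) * t := mul_le_mul_of_nonneg_right hle' ht0
        _ = 16 * (N * t) := by ring
        _ ≤ 16 * E := by linarith
    have hexp : (1/3 : ℝ) ≤ Real.exp (-(1 / (16 * E) * (n * t))) := by
      apply exp_third
      calc 1 / (16 * E) * (n * t) ≤ 1 / (16 * E) * (16 * E) :=
            mul_le_mul_of_nonneg_left hnt (by positivity)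
        _ = 1 := by field_simp
    have hle1 : (bondLaw p).real {ω | ω ∈ ArmE n ∧ (cluster0 ω).Finite} ≤ arm p n := by
      rw [← law_armE]
      exact measureReal_mono (fun ω hω => hω.1) (measure_ne_top _ _)
    have h5 : arm p n ≤ D * (n:ℝ)^(-(5/48) : ℝ) := hsup p n hp.le h1 hn (by rw [← ht]; exact hnt)
    have h3 : 16 * D * (n:ℝ)^(-(5/48) : ℝ) * (1/3) ≤
        16 * D * (n:ℝ)^(-(5/48) : ℝ) * Real.exp (-(1 / (16 * E) * (n * t))) :=
      mul_le_mul_of_nonneg_left hexp (by positivity)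
    have h6 : 0 ≤ D * (n:ℝ)^(-(5/48) : ℝ) := by positivity
    linarith
  · obtain ⟨j, hj, hj4, hj8⟩ := choose_j (by omega) hgt
    have hN4 : 4 * N ≤ 2^j * N := by
      apply Nat.mul_le_mul_right
      calc 4 = 2^2 := rfl
        _ ≤ 2^j := Nat.pow_le_pow_right (by norm_num) hj
    have h4 := radf_core p hN heps (n := n) hj (by omega)
    have h5 : arm p N ≤ D * (N:ℝ)^(-(5/48) : ℝ) := by
      apply hsup p N hp.le h1 (by omega)
      rw [← ht]
      linarith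
    have h7 := quarter_pow_le hj8
    have h8 := ana (a := 5/48) (by norm_num) (by norm_num) hN0
      (show (N:ℝ) ≤ n by exact_mod_cast (by omega : N ≤ n)) ht0 hNE hE0
    calc _ ≤ arm p N * (1/4)^(2^j) := h4
      _ ≤ (D * (N:ℝ)^(-(5/48) : ℝ)) * Real.exp (-((n:ℝ) / N / 8)) :=
          mul_le_mul h5 h7 (by positivity) (by positivity)
      _ = D * ((N:ℝ)^(-(5/48) : ℝ) * Real.exp (-((n:ℝ) / N / 8))) := by ring
      _ ≤ D * (16 * ((n:ℝ)^(-(5/48) : ℝ) * Real.exp (-(1 / (16 * E) * (n * t))))) :=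
          mul_le_mul_of_nonneg_left h8 (by positivity)
      _ = _ := by ring

/-- Upper bound for the two-point function at and below the critical point. -/
theorem tau_upper_sub : ∃ c C : ℝ, 0 < c ∧ 0 < C ∧ ∀ p : unitInterval, (p:ℝ) ≤ 1/2 →
    ∀ (x1 x2 : ℤ) (r : ℕ), 1 ≤ r → ((r:ℤ) ≤ |x1| ∨ (r:ℤ) ≤ |x2|) →
    tau p (x1, x2) ≤
      C * (r:ℝ)^(-(5/24) : ℝ) * Real.exp (-(c * (r * (1/2 - (p:ℝ))^(4/3 : ℝ)))) := by
  obtain ⟨c, C, hc, hC, hup⟩ := arm_upper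
  refine ⟨min (c / 2) (1/3), 9 + 16 * C^2, by positivity, by positivity, ?_⟩
  intro p hp x1 x2 r hr hx
  have h0 := p.2.1
  have h1 := p.2.2
  obtain ⟨t, ht⟩ : ∃ t : ℝ, t = (1/2 - (p:ℝ))^(4/3 : ℝ) := ⟨_, rfl⟩
  have ht0 : 0 ≤ t := by
    rw [ht]; exact Real.rpow_nonneg (by linarith) _
  have ht1 : t ≤ 1 := by
    rw [ht]; exact Real.rpow_le_one (by linarith) (by linarith) (by norm_num)
  have hup' := hup p h0 hp
  rw [← ht] at hup' ⊢
  have hr0 : (0:ℝ) < r := by exact_mod_cast hr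
  have hrp : 0 < (r:ℝ)^(-(5/24) : ℝ) := by positivity
  rcases lt_or_ge r 3 with h3 | h3
  · have h4 := tau_le_one p (x1, x2)
    have h5 := tiny hr h3 (a := 5/24) (by norm_num) (by norm_num)
    have hr3 : (r:ℝ) ≤ 3 := by exact_mod_cast h3.le
    have h6 : (1/3 : ℝ) ≤ Real.exp (-(min (c / 2) (1/3) * (r * t))) := by
      apply exp_third
      have h7 : (r:ℝ) * t ≤ 3 * 1 := mul_le_mul hr3 ht1 ht0 (by norm_num)
      calc min (c / 2) (1/3) * (r * t) ≤ (1/3) * (3 * 1) :=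
            mul_le_mul (min_le_right _ _) h7 (by positivity) (by norm_num)
        _ = 1 := by norm_num
    have h7 : (9 + 16 * C^2) * (r:ℝ)^(-(5/24) : ℝ) * (1/3) ≤ (9 + 16 * C^2) *
        (r:ℝ)^(-(5/24) : ℝ) * Real.exp (-(min (c / 2) (1/3) * (r * t))) :=
      mul_le_mul_of_nonneg_left h6 (by positivity)
    have h8 : 0 ≤ 16 * C^2 * (r:ℝ)^(-(5/24) : ℝ) * (1/3) := by positivity
    linarith
  · obtain ⟨k, hk⟩ : ∃ k : ℕ, k = (r - 1) / 2 := ⟨_, rfl⟩
    have hk1 : 1 ≤ k := by omega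
    have hk4 : r ≤ 4 * k := by omega
    have h4 : tau p (x1, x2) ≤ (arm p k)^2 := by
      apply tau_le_arm_sq
      rcases hx with h | h
      · left; simp only; omega
      · right; simp only; omega
    have hk0 : (0:ℝ) < k := by exact_mod_cast hk1
    have hk4' : (r:ℝ) ≤ 4 * k := by exact_mod_cast hk4
    have h5 := hup' k hk1
    have h6 : (k:ℝ)^(-(5/48) : ℝ) ≤ 4 * (r:ℝ)^(-(5/48) : ℝ) := by
      apply rpow_quarter hr0 _ (by norm_num) (by norm_num)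
      linarith
    have h7 : Real.exp (-(c * (k * t))) ≤ Real.exp (-(c / 4 * (r * t))) := by
      apply Real.exp_le_exp.mpr
      have h9 : (r:ℝ) * t ≤ 4 * k * t := mul_le_mul_of_nonneg_right hk4' ht0
      have h10 : c / 4 * (r * t) ≤ c / 4 * (4 * k * t) :=
        mul_le_mul_of_nonneg_left h9 (by positivity)
      have e : c / 4 * (4 * k * t) = c * (k * t) := by ring
      linarith
    have h8 : arm p k ≤ C * (4 * (r:ℝ)^(-(5/48) : ℝ)) * Real.exp (-(c / 4 * (r * t))) :=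
      h5.trans (mul_le_mul (mul_le_mul_of_nonneg_left h6 hC.le) h7 (Real.exp_pos _).le
        (by positivity))
    have e1 : (r:ℝ)^(-(5/24) : ℝ) = (r:ℝ)^(-(5/48) : ℝ) * (r:ℝ)^(-(5/48) : ℝ) := by
      rw [← Real.rpow_add hr0]; norm_num
    have e2 : Real.exp (-(c / 2 * (r * t))) =
        Real.exp (-(c / 4 * (r * t))) * Real.exp (-(c / 4 * (r * t))) := by
      rw [← Real.exp_add]; congr 1; ring
    have h9 : Real.exp (-(c / 2 * (r * t))) ≤ Real.exp (-(min (c / 2) (1/3) * (r * t))) := by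
      apply Real.exp_le_exp.mpr
      have : min (c / 2) (1/3) * (r * t) ≤ c / 2 * (r * t) :=
        mul_le_mul_of_nonneg_right (min_le_left _ _) (by positivity)
      linarith
    calc tau p (x1, x2) ≤ (arm p k)^2 := h4
      _ ≤ (C * (4 * (r:ℝ)^(-(5/48) : ℝ)) * Real.exp (-(c / 4 * (r * t))))^2 :=
          pow_le_pow_left₀ (arm_nonneg h0 h1 k) h8 2
      _ = (16 * C^2) * (r:ℝ)^(-(5/24) : ℝ) * Real.exp (-(c / 2 * (r * t))) := by
          rw [e1, e2]; ring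
      _ ≤ (9 + 16 * C^2) * (r:ℝ)^(-(5/24) : ℝ) * Real.exp (-(min (c / 2) (1/3) * (r * t))) := by
          apply mul_le_mul _ h9 (Real.exp_pos _).le (by positivity)
          apply mul_le_mul_of_nonneg_right _ hrp.le
          linarith

end T213
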