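import Pool.Agent.Run7.h213.T.Det

/-!
Upper bounds above the critical point: a finite cluster of large radius costs a closed dual circuit
which avoids a chain of open crossings.
-/

set_option maxHeartbeats 1000000

namespace T213

open H31K H974 Finset Pool.Agent.W424.NC

/-- The circuit and the crossings of the chain up to the step `J`. -/
def Good (R J : ℕ) (F : Finset Edg) : Prop :=
  Circ R ((2 * R : ℕ) : ℤ) F ∧ ∀ j ≤ J, Step R j F

theorem pr_not_steps {p : ℝ} (h0 : 0 ≤ p) (h1 : p ≤ 1) {R : ℕ} {e : ℝ}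
    (he : ∀ i : ℕ, eps p (2^i * R) ≤ e * (1/4)^i) (J : ℕ) {S : Finset Edg}
    (hS : boxE (2 * (2^J * R)) ⊆ S) :
    Pr (fun _ => p) S (fun F => ¬ ∀ j ≤ J, Step R j F) ≤ e * (4/3) * (1 - (1/4)^(J + 1)) := by
  have ok := okq h0 h1
  induction J with
  | zero =>
    have e1 : Pr (fun _ => p) S (fun F => ¬ ∀ j ≤ 0, Step R j F) =
        Pr (fun _ => p) S (fun F => ¬ Step R 0 F) := by
      apply Pr_congr
      intro F _
      apply not_congr
      constructor
      · intro h; exact h 0 le_rfl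
      · intro h j hj
        have : j = 0 := by omega
        rw [this]; exact h
    rw [e1, Pr_not, pr_step hS]
    have := he 0
    norm_num at this ⊢
    linarith
  | succ J ih =>
    have hle : 2 * (2^J * R) ≤ 2 * (2^(J+1) * R) := by
      rw [pow_succ]
      nlinarith [Nat.zero_le (2^J * R)]
    have i1 := ih ((boxE_mono hle).trans hS)
    have i2 := Pr_or_le ok S (fun F => ¬ ∀ j ≤ J, Step R j F) (fun F => ¬ Step R (J + 1) F)
    have i3 : Pr (fun _ => p) S (fun F => ¬ ∀ j ≤ J + 1, Step R j F) ≤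
        Pr (fun _ => p) S (fun F => (¬ ∀ j ≤ J, Step R j F) ∨ ¬ Step R (J + 1) F) := by
      apply Pr_mono ok
      intro F _ h
      by_contra h2
      push Not at h2
      apply h
      intro j hj
      rcases Nat.lt_or_ge j (J + 1) with hlt | hge
      · exact h2.1 j (by omega)
      · have : j = J + 1 := by omega
        rw [this]; exact h2.2
    have i4 : Pr (fun _ => p) S (fun F => ¬ Step R (J + 1) F) = eps p (2^(J+1) * R) := by
      rw [Pr_not, pr_step hS]; ring
    have i5 := he (J + 1)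
    rw [i4] at i2
    have e3 : e * (4/3) * (1 - (1/4:ℝ)^(J + 1 + 1)) =
        e * (4/3) * (1 - (1/4:ℝ)^(J + 1)) + e * (1/4:ℝ)^(J + 1) := by
      rw [pow_succ (1/4:ℝ) (J + 1)]; ring
    rw [e3]
    linarith

/-- The chain and the circuit fail with small probability. -/
theorem pr_not_good {p : ℝ} (h0 : 0 ≤ p) (h1 : p ≤ 1) {N : ℕ} (hN : 2 ≤ N)
    (he : eps p N ≤ 1/100) (j J : ℕ) {S : Finset Edg}
    (hS : boxE (2 * (2^J * (2^j * N))) ⊆ S) :
    Pr (fun _ => p) S (fun F => ¬ Good (2^j * N) J F) ≤ (1/4)^(2^j) := by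
  have ok := okq h0 h1
  obtain ⟨R, hR⟩ : ∃ R : ℕ, R = 2^j * N := ⟨_, rfl⟩
  have hR2 : 2 ≤ R := by
    rw [hR]
    exact hN.trans (Nat.le_mul_of_pos_left _ (by positivity))
  rw [← hR] at hS ⊢
  have hbox : boxE (2 * R) ⊆ S := (boxE_mono (by
    have : R ≤ 2^J * R := Nat.le_mul_of_pos_left _ (by positivity)
    omega)).trans hS
  have g1 := pr_circ_ge h0 h1 hR2 hbox
  have g2 : ∀ i : ℕ, eps p (2^i * R) ≤ ((1/25) * (1/4)^(2^j)) * (1/4)^i := by
    intro i
    have h3 := eps_pow2 h0 h1 hN he (i + j)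
    have e1 : 2^i * R = 2^(i + j) * N := by rw [hR, pow_add]; ring
    rw [e1]
    have h4 : (1/4:ℝ)^(2^(i + j)) ≤ (1/4)^(2^j) * (1/4)^i := by
      rw [← pow_add]
      apply pow_le_pow_of_le_one (by norm_num) (by norm_num)
      have h5 : i < 2^i := Nat.lt_two_pow_self
      have h6 : 1 ≤ 2^j := Nat.one_le_two_pow
      have h7 : 2^j * (i + 1) ≤ 2^j * 2^i := Nat.mul_le_mul_left _ h5
      have h8 : 2^(i + j) = 2^j * 2^i := by rw [pow_add]; ring
      have h9 : 2^j * (i + 1) = 2^j * i + 2^j := by ring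
      have h10 : i ≤ 2^j * i := Nat.le_mul_of_pos_left _ (by positivity)
      omega
    linarith
  have g3 := pr_not_steps h0 h1 g2 J hS
  have g4 := g2 0
  simp only [pow_zero, one_mul, mul_one] at g4
  have g5 := Pr_or_le ok S (fun F => ¬ Circ R ((2 * R : ℕ) : ℤ) F)
    (fun F => ¬ ∀ j ≤ J, Step R j F)
  have g6 : Pr (fun _ => p) S (fun F => ¬ Good R J F) ≤ Pr (fun _ => p) S
      (fun F => (¬ Circ R ((2 * R : ℕ) : ℤ) F) ∨ ¬ ∀ j ≤ J, Step R j F) := by
    apply Pr_mono ok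
    intro F _ h
    by_contra h2
    push Not at h2
    exact h ⟨h2.1, h2.2⟩
  have g7 : Pr (fun _ => p) S (fun F => ¬ Circ R ((2 * R : ℕ) : ℤ) F) ≤ 20 * eps p R := by
    rw [Pr_not]; linarith
  have h5 : (0:ℝ) ≤ (1/4)^(J+1) := by positivity
  have h6 : (0:ℝ) < (1/4)^(2^j) := by positivity
  have g8 : (1/25 : ℝ) * (1/4)^(2^j) * (4/3) * (1 - (1/4)^(J + 1)) ≤
      (1/25) * (1/4)^(2^j) * (4/3) := by
    have : 0 ≤ (1/25 : ℝ) * (1/4)^(2^j) * (4/3) * (1/4)^(J + 1) := by positivity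
    linarith
  linarith

/-- The good event carries paths far away. -/
theorem good_far {R : ℕ} (hR : 2 ≤ R) {F : Finset Edg} {J : ℕ} (h : Good R J F) {u v : Vtx}
    (hu : inR (-R) R (-R) R u)
    (hv : v.1 = -((2 * R : ℕ) : ℤ) ∨ v.1 = ((2 * R : ℕ) : ℤ) ∨ v.2 = -((2 * R : ℕ) : ℤ) ∨
      v.2 = ((2 * R : ℕ) : ℤ))
    (hr : Reach (↑F ∩ ↑(boxE (2 * R))) u v) :
    ∃ w : Vtx, (w.1 = 2 * ((2^J * R : ℕ) : ℤ) ∨ w.2 = 2 * ((2^J * R : ℕ) : ℤ)) ∧
      Reach (↑F : Set Edg) u w := by
  obtain ⟨hC, hst⟩ := h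
  obtain ⟨z, hz⟩ := circ_meet (R1 := (R:ℤ)) (R2 := ((2 * R : ℕ) : ℤ)) (by positivity)
    (by push_cast; omega) hC
  obtain ⟨a, w, hw, hza, hav⟩ := chain_conn hR (F := F) (z := z) hz J hst
  have m1 := hz u v hu hv hr
  have m2 : Reach (↑F : Set Edg) a w := by
    by_cases hev : Even J
    · rw [if_pos hev] at hav
      exact hav.2.2.mono Set.inter_subset_left
    · rw [if_neg hev] at hav
      exact hav.2.2.mono Set.inter_subset_left
  refine ⟨w, hw.2, (m1.mono Set.inter_subset_left).trans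
    ((hza.mono Set.inter_subset_left).trans m2)⟩

/-- The same around the point `(c1, c2)`. -/
theorem good_far_at {R : ℕ} (hR : 2 ≤ R) {F : Finset Edg} {J : ℕ} {c1 c2 : ℤ}
    (h : Good R J ((trl (-c1) (-c2)).mp F)) {u v : Vtx}
    (hu : inR (c1 - R) (c1 + R) (c2 - R) (c2 + R) u)
    (hv : v.1 = c1 - 2 * R ∨ v.1 = c1 + 2 * R ∨ v.2 = c2 - 2 * R ∨ v.2 = c2 + 2 * R)
    (hr : Reach (↑F ∩ ↑(RE (c1 - 2 * R) (c1 + 2 * R) (c2 - 2 * R) (c2 + 2 * R))) u v) :
    ∃ w : Vtx, (w.1 = c1 + 2 * ((2^J * R : ℕ) : ℤ) ∨ w.2 = c2 + 2 * ((2^J * R : ℕ) : ℤ)) ∧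
      Reach (↑F : Set Edg) u w := by
  obtain ⟨u1, u2⟩ := u
  obtain ⟨v1, v2⟩ := v
  have h1 := (trl (-c1) (-c2)).reach hr
  rw [LSym.image_inter, trl_RE, trl_ψ, trl_ψ] at h1
  obtain ⟨⟨w1, w2⟩, k1, k2⟩ := good_far hR h (u := (u1 + -c1, u2 + -c2))
    (v := (v1 + -c1, v2 + -c2)) (by
      unfold inR at hu ⊢
      simp only at hu ⊢
      omega) (by
      simp only at hv ⊢
      push_cast
      omega) (h1.mono (by
      apply Set.inter_subset_inter_right
      have : RE (c1 - 2 * R + -c1) (c1 + 2 * R + -c1) (c2 - 2 * R + -c2) (c2 + 2 * R + -c2) ⊆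
          boxE (2 * R) := by
        unfold boxE
        apply RE_subset <;> (push_cast; omega)
      exact_mod_cast this))
  have h3 := (trl c1 c2).reach k2
  rw [← LSym.coe_mp, trl_trl', trl_ψ, trl_ψ] at h3
  have e : (u1 + -c1 + c1, u2 + -c2 + c2) = (u1, u2) := by
    congr 1 <;> ring
  rw [e] at h3
  refine ⟨(w1 + c1, w2 + c2), ?_, h3⟩
  simp only at k1 ⊢
  omega

/-- Locality of the good event. -/
theorem good_local {R J : ℕ} {T : Finset Edg}
    (s1 : LRE (-((2 * R : ℕ) : ℤ)) ((2 * R : ℕ) : ℤ) R ((2 * R : ℕ) : ℤ) ⊆ T)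
    (s2 : LRE (-((2 * R : ℕ) : ℤ)) ((2 * R : ℕ) : ℤ) (-((2 * R : ℕ) : ℤ)) (-R) ⊆ T)
    (s3 : TBE R ((2 * R : ℕ) : ℤ) (-((2 * R : ℕ) : ℤ)) ((2 * R : ℕ) : ℤ) ⊆ T)
    (s4 : TBE (-((2 * R : ℕ) : ℤ)) (-R) (-((2 * R : ℕ) : ℤ)) ((2 * R : ℕ) : ℤ) ⊆ T)
    (s5 : ∀ j ≤ J, LRE 0 (2 * ((2^j * R : ℕ) : ℤ)) 0 (((2^j * R : ℕ) : ℤ) - 1) ⊆ T)
    (s6 : ∀ j ≤ J, TBE 0 (((2^j * R : ℕ) : ℤ) - 1) 0 (2 * ((2^j * R : ℕ) : ℤ)) ⊆ T)
    (F : Finset Edg) : Good R J F ↔ Good R J (F ∩ T) := by
  unfold Good Circ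
  rw [LRc_local s1, LRc_local s2, TBc_local s3, TBc_local s4]
  apply and_congr Iff.rfl
  have key : ∀ j ≤ J, (Step R j F ↔ Step R j (F ∩ T)) := by
    intro j hj
    unfold Step
    split_ifs with hev
    · exact LRc_local (s5 j hj)
    · exact TBc_local (s6 j hj)
  exact ⟨fun h j hj => (key j hj).mp (h j hj), fun h j hj => (key j hj).mpr (h j hj)⟩

/-- Independence of the good event and of the events near the points. -/
theorem pr_and_not_good {p : ℝ} (h0 : 0 ≤ p) (h1 : p ≤ 1) {N : ℕ} (hN : 2 ≤ N)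
    (he : eps p N ≤ 1/100) (j J : ℕ) {c1 c2 : ℤ} {S T : Finset Edg} (hTS : T ⊆ S)
    (hS : boxE (2 * (2^J * (2^j * N))) ⊆ (trl (-c1) (-c2)).mp S)
    (hT1 : ∀ e ∈ (trl (-c1) (-c2)).mp T, ¬ (0 ≤ e.1 ∧ 0 ≤ e.2.1))
    (hT2 : ∀ e ∈ (trl (-c1) (-c2)).mp T,
      (-((2^j * N : ℕ) : ℤ) < e.1 ∧ e.1 < ((2^j * N : ℕ) : ℤ) ∧
        -((2^j * N : ℕ) : ℤ) < e.2.1 ∧ e.2.1 < ((2^j * N : ℕ) : ℤ)) ∨
      e.1 < -(2 * ((2^j * N : ℕ) : ℤ)) ∨ e.2.1 < -(2 * ((2^j * N : ℕ) : ℤ)) ∨
        2 * ((2^j * N : ℕ) : ℤ) < e.1 ∨ 2 * ((2^j * N : ℕ) : ℤ) < e.2.1)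
    {A : Finset Edg → Prop} (hA : ∀ F, F ⊆ S → (A F ↔ A (F ∩ T))) :
    Pr (fun _ => p) S (fun F => A F ∧ ¬ Good (2^j * N) J ((trl (-c1) (-c2)).mp F)) ≤
      Pr (fun _ => p) S A * (1/4)^(2^j) := by
  have ok := okq h0 h1
  obtain ⟨R, hR⟩ : ∃ R : ℕ, R = 2^j * N := ⟨_, rfl⟩
  have hpg := pr_not_good h0 h1 hN he j J hS
  rw [← hR] at hS hT2 hpg ⊢
  have hB : ∀ F, F ⊆ S → ((¬ Good R J ((trl (-c1) (-c2)).mp F)) ↔
      ¬ Good R J ((trl (-c1) (-c2)).mp (F ∩ (S \ T)))) := by
    intro F _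
    rw [LSym.mp_inter, LSym.mp_sdiff]
    apply not_congr
    have hb : boxE (2 * R) ⊆ (trl (-c1) (-c2)).mp S := (boxE_mono (by
      have : R ≤ 2^J * R := Nat.le_mul_of_pos_left _ (by positivity)
      omega)).trans hS
    have hbj : ∀ j ≤ J, boxE (2 * (2^j * R)) ⊆ (trl (-c1) (-c2)).mp S := by
      intro j hj
      refine (boxE_mono ?_).trans hS
      have : 2^j * R ≤ 2^J * R := Nat.mul_le_mul_right _ (Nat.pow_le_pow_right (by norm_num) hj)
      omega
    apply good_local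
    · rintro ⟨x, y, _ | _⟩ h
      · rw [Finset.mem_sdiff]
        refine ⟨hb ?_, fun h2 => ?_⟩
        · unfold boxE
          rw [mem_LRE_false] at h; rw [mem_RE_false]; omega
        · have := hT2 _ h2
          rw [mem_LRE_false] at h
          simp only at this
          push_cast at h
          omega
      · rw [Finset.mem_sdiff]
        refine ⟨hb ?_, fun h2 => ?_⟩
        · unfold boxE
          rw [mem_LRE_true] at h; rw [mem_RE_true]; omega
        · have := hT2 _ h2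
          rw [mem_LRE_true] at h
          simp only at this
          push_cast at h
          omega
    · rintro ⟨x, y, _ | _⟩ h
      · rw [Finset.mem_sdiff]
        refine ⟨hb ?_, fun h2 => ?_⟩
        · unfold boxE
          rw [mem_LRE_false] at h; rw [mem_RE_false]; omega
        · have := hT2 _ h2
          rw [mem_LRE_false] at h
          simp only at this
          push_cast at h
          omega
      · rw [Finset.mem_sdiff]
        refine ⟨hb ?_, fun h2 => ?_⟩
        · unfold boxE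
          rw [mem_LRE_true] at h; rw [mem_RE_true]; omega
        · have := hT2 _ h2
          rw [mem_LRE_true] at h
          simp only at this
          push_cast at h
          omega
    · rintro ⟨x, y, _ | _⟩ h
      · rw [Finset.mem_sdiff]
        refine ⟨hb ?_, fun h2 => ?_⟩
        · unfold boxE
          rw [mem_TBE_false] at h; rw [mem_RE_false]; omega
        · have := hT2 _ h2
          rw [mem_TBE_false] at h
          simp only at this
          push_cast at h
          omega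
      · rw [Finset.mem_sdiff]
        refine ⟨hb ?_, fun h2 => ?_⟩
        · unfold boxE
          rw [mem_TBE_true] at h; rw [mem_RE_true]; omega
        · have := hT2 _ h2
          rw [mem_TBE_true] at h
          simp only at this
          push_cast at h
          omega
    · rintro ⟨x, y, _ | _⟩ h
      · rw [Finset.mem_sdiff]
        refine ⟨hb ?_, fun h2 => ?_⟩
        · unfold boxE
          rw [mem_TBE_false] at h; rw [mem_RE_false]; omega
        · have := hT2 _ h2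
          rw [mem_TBE_false] at h
          simp only at this
          push_cast at h
          omega
      · rw [Finset.mem_sdiff]
        refine ⟨hb ?_, fun h2 => ?_⟩
        · unfold boxE
          rw [mem_TBE_true] at h; rw [mem_RE_true]; omega
        · have := hT2 _ h2
          rw [mem_TBE_true] at h
          simp only at this
          push_cast at h
          omega
    · intro j hj
      have hM : (0:ℤ) ≤ ((2^j * R : ℕ) : ℤ) := by positivity
      rintro ⟨x, y, _ | _⟩ h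
      · rw [Finset.mem_sdiff]
        refine ⟨hbj j hj ?_, fun h2 => ?_⟩
        · unfold boxE
          rw [mem_LRE_false] at h; rw [mem_RE_false]
          have e : ((2 * (2^j * R) : ℕ) : ℤ) = 2 * ((2^j * R : ℕ) : ℤ) := by push_cast; ring
          rw [e]; omega
        · have := hT1 _ h2
          rw [mem_LRE_false] at h
          simp only at this
          omega
      · rw [Finset.mem_sdiff]
        refine ⟨hbj j hj ?_, fun h2 => ?_⟩
        · unfold boxE
          rw [mem_LRE_true] at h; rw [mem_RE_true]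
          have e : ((2 * (2^j * R) : ℕ) : ℤ) = 2 * ((2^j * R : ℕ) : ℤ) := by push_cast; ring
          rw [e]; omega
        · have := hT1 _ h2
          rw [mem_LRE_true] at h
          simp only at this
          omega
    · intro j hj
      have hM : (0:ℤ) ≤ ((2^j * R : ℕ) : ℤ) := by positivity
      rintro ⟨x, y, _ | _⟩ h
      · rw [Finset.mem_sdiff]
        refine ⟨hbj j hj ?_, fun h2 => ?_⟩
        · unfold boxE
          rw [mem_TBE_false] at h; rw [mem_RE_false]
          have e : ((2 * (2^j * R) : ℕ) : ℤ) = 2 * ((2^j * R : ℕ) : ℤ) := by push_cast; ring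
          rw [e]; omega
        · have := hT1 _ h2
          rw [mem_TBE_false] at h
          simp only at this
          omega
      · rw [Finset.mem_sdiff]
        refine ⟨hbj j hj ?_, fun h2 => ?_⟩
        · unfold boxE
          rw [mem_TBE_true] at h; rw [mem_RE_true]
          have e : ((2 * (2^j * R) : ℕ) : ℤ) = 2 * ((2^j * R : ℕ) : ℤ) := by push_cast; ring
          rw [e]; omega
        · have := hT1 _ h2
          rw [mem_TBE_true] at h
          simp only at this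
          omega
  have h2 := Pr_indep (p := fun _ => p) hTS (Finset.sdiff_subset (s := S) (t := T))
    Finset.disjoint_sdiff hA hB
  rw [h2]
  apply mul_le_mul_of_nonneg_left _ (Pr_nonneg ok _ _)
  rw [← LSym.pr (trl (-c1) (-c2)) p S (fun F => ¬ Good R J F)]
  exact hpg

end T213
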