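import Pool.Agent.Run7.h213.T.Low
import Pool.Agent.Run7.h213.T.Up

/-!
Upper bounds for the truncated two-point function and the radius of finite clusters, at one scale.
-/

set_option maxHeartbeats 1000000

namespace T213

open H31K H974 Finset Pool.Agent.W424.NC MeasureTheory

theorem finite_iff (ω : sqLattice.edgeSet → Bool) :
    (cluster0 ω).Finite ↔ ∃ K : ℕ, ω ∉ ArmE K := by
  rw [← Set.not_infinite, infinite_iff]
  push Not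
  rfl

/-- Passage to the limit. -/
theorem real_finite_le (p : unitInterval) {E : Set (sqLattice.edgeSet → Bool)} {B : ℝ}
    (hB : 0 ≤ B) (h : ∀ K : ℕ, (bondLaw p).real {ω | ω ∈ E ∧ ω ∉ ArmE K} ≤ B) :
    (bondLaw p).real {ω | ω ∈ E ∧ (cluster0 ω).Finite} ≤ B := by
  have e : {ω | ω ∈ E ∧ (cluster0 ω).Finite} = ⋃ K : ℕ, {ω | ω ∈ E ∧ ω ∉ ArmE K} := by
    ext ω
    simp only [Set.mem_setOf_eq, Set.mem_iUnion, finite_iff]
    constructor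
    · rintro ⟨h1, K, h2⟩; exact ⟨K, h1, h2⟩
    · rintro ⟨K, h1, h2⟩; exact ⟨h1, K, h2⟩
  have mono : Monotone (fun K : ℕ => {ω | ω ∈ E ∧ ω ∉ ArmE K}) := by
    intro K K' hK ω hω
    exact ⟨hω.1, fun h2 => hω.2 (armE_anti hK h2)⟩
  rw [measureReal_def, e, mono.measure_iUnion]
  apply ENNReal.toReal_le_of_le_ofReal hB
  apply iSup_le
  intro K
  exact (ENNReal.le_ofReal_iff_toReal_le (measure_ne_top _ _) hB).mpr (h K)

theorem armE_of_reach {ω : sqLattice.edgeSet → Bool} {K : ℕ} {w : Vtx}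
    (h : Reach (opn ω) (0, 0) w) (hw : w.1 ≤ -(K:ℤ) ∨ (K:ℤ) ≤ w.1 ∨ w.2 ≤ -(K:ℤ) ∨ (K:ℤ) ≤ w.2) :
    ω ∈ ArmE K := by
  rw [armE_iff]
  obtain ⟨v, k1, k2, k3⟩ := first_exit (a := -K) (b := K) (c := -K) (d := K)
      (by unfold inR; simp) h hw
  exact ⟨v, ⟨k1, k2⟩, k3⟩

theorem two_pow_large (K a b : ℕ) (R : ℕ) (hR : 1 ≤ R) : K + a + b ≤ 2^(K + a + b) * R := by
  have h : K + a + b < 2^(K + a + b) := Nat.lt_two_pow_self
  exact h.le.trans (Nat.le_mul_of_pos_right _ hR)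

/-- The union of the two boxes. -/
noncomputable def TT (N : ℕ) (x1 x2 : ℤ) : Finset Edg :=
  boxE N ∪ RE (x1 - N) (x1 + N) (x2 - N) (x2 + N)

theorem abs_case {x1 x2 B : ℤ} (h : B < |x1| ∨ B < |x2|) :
    x1 + B < 0 ∨ B < x1 ∨ x2 + B < 0 ∨ B < x2 := by
  rcases h with h | h
  · rcases lt_abs.mp h with h | h
    · right; left; exact h
    · left; omega
  · rcases lt_abs.mp h with h | h
    · right; right; right; exact h
    · right; right; left; omega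

theorem geo1 {N R x y x1 x2 b1 b2 c1 c2 : ℤ} (hN : 2 ≤ N)
    (hc1 : c1 = b1 + N + 1) (hc2 : c2 = b2)
    (hb : (x1 ≤ 0 ∧ b1 = 0 ∧ b2 = 0) ∨ (0 ≤ x1 ∧ b1 = x1 ∧ b2 = x2))
    (h : (-N ≤ x + c1 ∧ x + c1 ≤ N ∧ -N ≤ y + c2 ∧ y + c2 ≤ N) ∨
      (x1 - N ≤ x + c1 ∧ x + c1 ≤ x1 + N ∧ x2 - N ≤ y + c2 ∧ y + c2 ≤ x2 + N)) :
    x < 0 := by
  subst hc1 hc2
  rcases hb with ⟨h1, h2, h3⟩ | ⟨h1, h2, h3⟩ <;> subst h2 h3 <;>
    rcases h with ⟨h4, h5, h6, h7⟩ | ⟨h4, h5, h6, h7⟩ <;> omega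

theorem geo2 {N R x y x1 x2 b1 b2 c1 c2 : ℤ} (hN : 2 ≤ N) (hR4 : 4 * N ≤ R)
    (hc1 : c1 = b1 + N + 1) (hc2 : c2 = b2)
    (hb : (x1 ≤ 0 ∧ b1 = 0 ∧ b2 = 0) ∨ (0 ≤ x1 ∧ b1 = x1 ∧ b2 = x2))
    (hcase : x1 + (2 * R + 2 * N + 2) < 0 ∨ 2 * R + 2 * N + 2 < x1 ∨
      x2 + (2 * R + 2 * N + 2) < 0 ∨ 2 * R + 2 * N + 2 < x2)
    (h : (-N ≤ x + c1 ∧ x + c1 ≤ N ∧ -N ≤ y + c2 ∧ y + c2 ≤ N) ∨
      (x1 - N ≤ x + c1 ∧ x + c1 ≤ x1 + N ∧ x2 - N ≤ y + c2 ∧ y + c2 ≤ x2 + N)) :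
    (-R < x ∧ x < R ∧ -R < y ∧ y < R) ∨ x < -(2 * R) ∨ y < -(2 * R) ∨ 2 * R < x ∨ 2 * R < y := by
  subst hc1 hc2
  rcases hb with ⟨h1, h2, h3⟩ | ⟨h1, h2, h3⟩ <;> subst h2 h3
  · rcases h with ⟨h4, h5, h6, h7⟩ | ⟨h4, h5, h6, h7⟩
    · left; refine ⟨?_, ?_, ?_, ?_⟩ <;> omega
    · rcases hcase with h8 | h8 | h8 | h8
      · right; left; omega
      · exfalso; omega
      · right; right; left; omega
      · right; right; right; right; omega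
  · rcases h with ⟨h4, h5, h6, h7⟩ | ⟨h4, h5, h6, h7⟩
    · rcases hcase with h8 | h8 | h8 | h8
      · exfalso; omega
      · right; left; omega
      · right; right; right; right; omega
      · right; right; left; omega
    · left; refine ⟨?_, ?_, ?_, ?_⟩ <;> omega

theorem geo3 {N R x1 x2 b1 b2 c1 c2 : ℤ} (hN : 2 ≤ N) (hR4 : 4 * N ≤ R)
    (hc1 : c1 = b1 + N + 1) (hc2 : c2 = b2)
    (hb : (x1 ≤ 0 ∧ b1 = 0 ∧ b2 = 0) ∨ (0 ≤ x1 ∧ b1 = x1 ∧ b2 = x2))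
    (hcase : x1 + (2 * R + 2 * N + 2) < 0 ∨ 2 * R + 2 * N + 2 < x1 ∨
      x2 + (2 * R + 2 * N + 2) < 0 ∨ 2 * R + 2 * N + 2 < x2) {G : Set Edg}
    (h : Reach G (0, 0) (x1, x2)) :
    ∃ o : Vtx, Reach G (b1, b2) o ∧ (o.1 ≤ c1 - 2 * R ∨ c1 + 2 * R ≤ o.1 ∨
      o.2 ≤ c2 - 2 * R ∨ c2 + 2 * R ≤ o.2) := by
  subst hc1 hc2
  rcases hb with ⟨h1, h2, h3⟩ | ⟨h1, h2, h3⟩ <;> subst h2 h3
  · refine ⟨(x1, x2), h, ?_⟩
    simp only
    rcases hcase with h8 | h8 | h8 | h8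
    · left; omega
    · exfalso; omega
    · right; right; left; omega
    · right; right; right; omega
  · refine ⟨(0, 0), h.symm, ?_⟩
    simp only
    rcases hcase with h8 | h8 | h8 | h8
    · exfalso; omega
    · left; omega
    · right; right; right; omega
    · right; right; left; omega

theorem tauf_aux (p : unitInterval) {N : ℕ} (hN : 2 ≤ N) (he : eps p N ≤ 1/100) {x1 x2 : ℤ}
    {j : ℕ} (hj : 2 ≤ j)
    (hx : 2 * ((2^j * N : ℕ) : ℤ) + 2 * N + 2 < |x1| ∨ 2 * ((2^j * N : ℕ) : ℤ) + 2 * N + 2 < |x2|)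
    {b1 b2 : ℤ} (hb : (x1 ≤ 0 ∧ b1 = 0 ∧ b2 = 0) ∨ (0 ≤ x1 ∧ b1 = x1 ∧ b2 = x2)) (K : ℕ) :
    (bondLaw p).real {ω | ω ∈ {ω | (x1, x2) ∈ cluster0 ω} ∧ ω ∉ ArmE K} ≤
      (arm p N * arm p N) * (1/4)^(2^j) := by
  have h0 := p.2.1
  have h1 := p.2.2
  obtain ⟨R, hR⟩ : ∃ R : ℕ, R = 2^j * N := ⟨_, rfl⟩
  have hR4 : 4 * N ≤ R := by
    rw [hR]
    apply Nat.mul_le_mul_right
    calc 4 = 2^2 := rfl
      _ ≤ 2^j := Nat.pow_le_pow_right (by norm_num) hj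
  have hRz : 4 * (N:ℤ) ≤ R := by exact_mod_cast hR4
  have hNz : 2 ≤ (N:ℤ) := by exact_mod_cast hN
  obtain ⟨c1, hc1⟩ : ∃ c1 : ℤ, c1 = b1 + N + 1 := ⟨_, rfl⟩
  obtain ⟨c2, hc2⟩ : ∃ c2 : ℤ, c2 = b2 := ⟨_, rfl⟩
  obtain ⟨A, hA1, hA2, hA3, hA4⟩ : ∃ A : ℕ, (-(A:ℤ) ≤ c1 ∧ c1 ≤ A) ∧ (-(A:ℤ) ≤ c2 ∧ c2 ≤ A) ∧
      (-(A:ℤ) ≤ x1 ∧ x1 ≤ A) ∧ (-(A:ℤ) ≤ x2 ∧ x2 ≤ A) := by
    refine ⟨c1.natAbs + c2.natAbs + x1.natAbs + x2.natAbs, ⟨?_, ?_⟩, ⟨?_, ?_⟩, ⟨?_, ?_⟩,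
      ⟨?_, ?_⟩⟩ <;> omega
  obtain ⟨J, hJ⟩ : ∃ J : ℕ, J = K + A + 0 := ⟨_, rfl⟩
  obtain ⟨M, hM⟩ : ∃ M : ℕ, M = 2^J * R := ⟨_, rfl⟩
  have hMJ : K + A + 0 ≤ M := by
    rw [hM, hJ]
    exact two_pow_large K _ _ R (by omega)
  have hMR : R ≤ M := by rw [hM]; exact Nat.le_mul_of_pos_left _ (by positivity)
  obtain ⟨S, hS⟩ : ∃ S : Finset Edg, S = boxE (2 * M + 2 * R + N + 2 * A) := ⟨_, rfl⟩
  have hx' : 2 * (R:ℤ) + 2 * N + 2 < |x1| ∨ 2 * (R:ℤ) + 2 * N + 2 < |x2| := by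
    rw [hR]; exact hx
  clear hx
  have hx0 : 2 * (N:ℤ) < |x1| ∨ 2 * (N:ℤ) < |x2| := by
    rcases hx' with h | h
    · left; omega
    · right; omega
  have hcase := abs_case hx'
  clear hx'
  have hA0 : boxE N ⊆ S := by rw [hS]; exact boxE_mono (by omega)
  have hB0 : RE (x1 - N) (x1 + N) (x2 - N) (x2 + N) ⊆ S := by
    clear hb hcase hx0
    rw [hS]; unfold boxE; apply RE_subset <;> omega
  have hTS : TT N x1 x2 ⊆ S := by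
    unfold TT
    exact Finset.union_subset hA0 hB0
  have hbS : boxE (2 * (2^J * (2^j * N))) ⊆ (trl (-c1) (-c2)).mp S := by
    clear hb hcase hx0
    rw [hS, ← hR, ← hM]
    unfold boxE
    rw [trl_RE]
    apply RE_subset <;> omega
  have hmem : ∀ x y : ℤ, ∀ b : Bool, (x, y, b) ∈ (trl (-c1) (-c2)).mp (TT N x1 x2) →
      (-(N:ℤ) ≤ x + c1 ∧ x + c1 ≤ N ∧ -(N:ℤ) ≤ y + c2 ∧ y + c2 ≤ N) ∨
      (x1 - N ≤ x + c1 ∧ x + c1 ≤ x1 + N ∧ x2 - N ≤ y + c2 ∧ y + c2 ≤ x2 + N) := by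
    intro x y b he1
    clear hb hcase hx0
    rw [LSym.mem_mp, trl_φs] at he1
    unfold TT boxE at he1
    rw [Finset.mem_union] at he1
    cases b
    · rw [mem_RE_false, mem_RE_false] at he1
      rcases he1 with he1 | he1
      · left; omega
      · right; omega
    · rw [mem_RE_true, mem_RE_true] at he1
      rcases he1 with he1 | he1
      · left; omega
      · right; omega
  have hT1 : ∀ e ∈ (trl (-c1) (-c2)).mp (TT N x1 x2), ¬ (0 ≤ e.1 ∧ 0 ≤ e.2.1) := by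
    rintro ⟨x, y, b⟩ he1
    have h2 := geo1 (R := R) hNz hc1 hc2 hb (hmem x y b he1)
    simp only
    exact fun h3 => absurd h3.1 (not_le.mpr h2)
  have hT2 : ∀ e ∈ (trl (-c1) (-c2)).mp (TT N x1 x2),
      (-((2^j * N : ℕ) : ℤ) < e.1 ∧ e.1 < ((2^j * N : ℕ) : ℤ) ∧
        -((2^j * N : ℕ) : ℤ) < e.2.1 ∧ e.2.1 < ((2^j * N : ℕ) : ℤ)) ∨
      e.1 < -(2 * ((2^j * N : ℕ) : ℤ)) ∨ e.2.1 < -(2 * ((2^j * N : ℕ) : ℤ)) ∨
        2 * ((2^j * N : ℕ) : ℤ) < e.1 ∨ 2 * ((2^j * N : ℕ) : ℤ) < e.2.1 := by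
    rintro ⟨x, y, b⟩ he1
    rw [← hR]
    exact geo2 hNz hRz hc1 hc2 hb hcase (hmem x y b he1)
  have hloc : ∀ F, F ⊆ S → ((Arm N F ∧ Arm N ((trl (-x1) (-x2)).mp F)) ↔
      (Arm N (F ∩ TT N x1 x2) ∧ Arm N ((trl (-x1) (-x2)).mp (F ∩ TT N x1 x2)))) := by
    intro F _
    apply and_congr
    · exact Arm_local (by unfold TT; exact Finset.subset_union_left)
    · rw [LSym.mp_inter]
      apply Arm_local
      have e3 : (trl (-x1) (-x2)).mp (RE (x1 - N) (x1 + N) (x2 - N) (x2 + N)) = boxE N := by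
        rw [trl_RE]; unfold boxE; congr 1 <;> ring
      rw [← e3]
      apply LSym.mp_mono
      unfold TT
      exact Finset.subset_union_right
  have hmain := pr_and_not_good h0 h1 hN he j J hTS hbS hT1 hT2 hloc
  rw [t10_indep (p:ℝ) hx0 hA0 hB0] at hmain
  refine le_trans ?_ hmain
  rw [← law_event p S (fun F => (Arm N F ∧ Arm N ((trl (-x1) (-x2)).mp F)) ∧
    ¬ Good (2^j * N) J ((trl (-c1) (-c2)).mp F))]
  refine measureReal_mono ?_ (measure_ne_top _ _)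
  rintro ω ⟨hω, hK⟩
  refine ⟨t10_sub hx0 hA0 hB0 hω, ?_⟩
  intro hg
  apply hK
  rw [← hR] at hg
  have hreach := t10_reach hω
  obtain ⟨o, ho1, ho2⟩ := geo3 hNz hRz hc1 hc2 hb hcase hreach
  have hin : inR (c1 - 2 * R) (c1 + 2 * R) (c2 - 2 * R) (c2 + 2 * R) (b1, b2) := by
    clear hb hcase hx0
    unfold inR; simp only; omega
  have hin2 : inR (c1 - R) (c1 + R) (c2 - R) (c2 + R) (b1, b2) := by
    clear hb hcase hx0
    unfold inR; simp only; omega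
  obtain ⟨v, k1, k2, k3⟩ := first_exit hin ho1 ho2
  have hsub : RE (c1 - 2 * R) (c1 + 2 * R) (c2 - 2 * R) (c2 + 2 * R) ⊆ S := by
    clear hb hcase hx0
    rw [hS]; unfold boxE; apply RE_subset <;> omega
  obtain ⟨w, w1, w2⟩ := good_far_at (by omega) hg (u := (b1, b2)) (v := v) hin2 k2 (k3.mono (by
      rw [FF_coe]
      rintro e ⟨he1, he2⟩
      exact ⟨⟨he1, hsub he2⟩, he2⟩))
  have hw3 : Reach (opn ω) (b1, b2) w := w2.mono (by rw [FF_coe]; exact Set.inter_subset_left)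
  have hw4 : Reach (opn ω) (0, 0) w := by
    rcases hb with ⟨h2, h3, h4⟩ | ⟨h2, h3, h4⟩
    · rw [h3, h4] at hw3; exact hw3
    · rw [h3, h4] at hw3; exact hreach.trans hw3
  apply armE_of_reach hw4
  rw [← hM] at w1
  clear hb hcase hx0
  rcases w1 with w1 | w1
  · right; left; omega
  · right; right; right; omega

theorem tauf_core (p : unitInterval) {N : ℕ} (hN : 2 ≤ N) (he : eps p N ≤ 1/100) {x1 x2 : ℤ}
    {j : ℕ} (hj : 2 ≤ j)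
    (hx : 2 * ((2^j * N : ℕ) : ℤ) + 2 * N + 2 < |x1| ∨
      2 * ((2^j * N : ℕ) : ℤ) + 2 * N + 2 < |x2|) :
    (bondLaw p).real {ω | (x1, x2) ∈ cluster0 ω ∧ (cluster0 ω).Finite} ≤
      (arm p N)^2 * (1/4)^(2^j) := by
  have ha := arm_nonneg p.2.1 p.2.2 N
  refine real_finite_le p (E := {ω | (x1, x2) ∈ cluster0 ω}) (by positivity) (fun K => ?_)
  rw [sq]
  rcases le_total x1 0 with h | h
  · exact tauf_aux p hN he hj hx (b1 := 0) (b2 := 0) (Or.inl ⟨h, rfl, rfl⟩) K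
  · exact tauf_aux p hN he hj hx (b1 := x1) (b2 := x2) (Or.inr ⟨h, rfl, rfl⟩) K

theorem radf_core (p : unitInterval) {N n : ℕ} (hN : 2 ≤ N) (he : eps p N ≤ 1/100)
    {j : ℕ} (hj : 2 ≤ j) (hn : 2 * (2^j * N) + N + 1 ≤ n) :
    (bondLaw p).real {ω | ω ∈ ArmE n ∧ (cluster0 ω).Finite} ≤ arm p N * (1/4)^(2^j) := by
  have h0 := p.2.1
  have h1 := p.2.2
  have ha := arm_nonneg h0 h1 N
  refine real_finite_le p (E := ArmE n) (by positivity) (fun K => ?_)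
  obtain ⟨R, hR⟩ : ∃ R : ℕ, R = 2^j * N := ⟨_, rfl⟩
  have hR4 : 4 * N ≤ R := by
    rw [hR]
    apply Nat.mul_le_mul_right
    calc 4 = 2^2 := rfl
      _ ≤ 2^j := Nat.pow_le_pow_right (by norm_num) hj
  obtain ⟨c1, hc1⟩ : ∃ c1 : ℤ, c1 = N + 1 := ⟨_, rfl⟩
  obtain ⟨J, hJ⟩ : ∃ J : ℕ, J = K + c1.natAbs + 0 := ⟨_, rfl⟩
  obtain ⟨M, hM⟩ : ∃ M : ℕ, M = 2^J * R := ⟨_, rfl⟩
  have hMJ : K + c1.natAbs + 0 ≤ M := by
    rw [hM, hJ]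
    exact two_pow_large K _ _ R (by omega)
  have hMR : R ≤ M := by rw [hM]; exact Nat.le_mul_of_pos_left _ (by positivity)
  obtain ⟨S, hS⟩ : ∃ S : Finset Edg, S = boxE (2 * M + 2 * R + c1.natAbs + N) := ⟨_, rfl⟩
  have hA0 : boxE N ⊆ S := by rw [hS]; exact boxE_mono (by omega)
  have hbS : boxE (2 * (2^J * (2^j * N))) ⊆ (trl (-c1) (-0)).mp S := by
    rw [hS, ← hR, ← hM]
    unfold boxE
    rw [trl_RE]
    apply RE_subset <;> omega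
  have hT1 : ∀ e ∈ (trl (-c1) (-0)).mp (boxE N), ¬ (0 ≤ e.1 ∧ 0 ≤ e.2.1) := by
    rintro ⟨x, y, b⟩ he1
    rw [LSym.mem_mp, trl_φs] at he1
    unfold boxE at he1
    simp only
    cases b
    · rw [mem_RE_false] at he1
      omega
    · rw [mem_RE_true] at he1
      omega
  have hT2 : ∀ e ∈ (trl (-c1) (-0)).mp (boxE N),
      (-((2^j * N : ℕ) : ℤ) < e.1 ∧ e.1 < ((2^j * N : ℕ) : ℤ) ∧
        -((2^j * N : ℕ) : ℤ) < e.2.1 ∧ e.2.1 < ((2^j * N : ℕ) : ℤ)) ∨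
      e.1 < -(2 * ((2^j * N : ℕ) : ℤ)) ∨ e.2.1 < -(2 * ((2^j * N : ℕ) : ℤ)) ∨
        2 * ((2^j * N : ℕ) : ℤ) < e.1 ∨ 2 * ((2^j * N : ℕ) : ℤ) < e.2.1 := by
    rintro ⟨x, y, b⟩ he1
    rw [LSym.mem_mp, trl_φs] at he1
    unfold boxE at he1
    rw [← hR]
    simp only
    cases b
    · rw [mem_RE_false] at he1
      omega
    · rw [mem_RE_true] at he1
      omega
  have hmain := pr_and_not_good h0 h1 hN he j J hA0 hbS hT1 hT2 (A := Arm N)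
    (fun F _ => Arm_local (Finset.Subset.refl _))
  rw [pr_Arm (p:ℝ) hA0] at hmain
  refine le_trans ?_ hmain
  rw [← law_event p S (fun F => Arm N F ∧ ¬ Good (2^j * N) J ((trl (-c1) (-0)).mp F))]
  refine measureReal_mono ?_ (measure_ne_top _ _)
  rintro ω ⟨hω, hK⟩
  have hωN := armE_anti (show N ≤ n by
    have : N ≤ 2^j * N := Nat.le_mul_of_pos_left _ (by positivity)
    omega) hω
  refine ⟨?_, ?_⟩
  · rw [armE_iff] at hωN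
    obtain ⟨v, hv1, hv2⟩ := hωN
    refine ⟨v, hv1, hv2.mono ?_⟩
    rw [FF_coe]
    rintro e ⟨he1, he2⟩
    exact ⟨⟨he1, hA0 he2⟩, he2⟩
  · intro hg
    apply hK
    rw [← hR] at hg hn
    rw [armE_iff] at hω
    obtain ⟨o, ho, hr⟩ := hω
    have ho2 := ho.2
    obtain ⟨v, k1, k2, k3⟩ := first_exit (a := c1 - 2 * R) (b := c1 + 2 * R) (c := 0 - 2 * R)
      (d := 0 + 2 * R) (by unfold inR; simp only; omega) (hr.mono Set.inter_subset_left)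
      (by omega)
    have hsub : RE (c1 - 2 * R) (c1 + 2 * R) (0 - 2 * R) (0 + 2 * R) ⊆ S := by
      rw [hS]; unfold boxE; apply RE_subset <;> omega
    obtain ⟨w, w1, w2⟩ := good_far_at (by omega) hg (u := (0, 0)) (v := v)
      (by unfold inR; simp only; omega) k2 (k3.mono (by
        rw [FF_coe]
        rintro e ⟨he1, he2⟩
        exact ⟨⟨he1, hsub he2⟩, he2⟩))
    have hw3 : Reach (opn ω) (0, 0) w := w2.mono (by rw [FF_coe]; exact Set.inter_subset_left)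
    apply armE_of_reach hw3
    rw [← hM] at w1
    omega

end T213
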