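import Pool.Agent.W424.NC.Win
import Pool.Agent.H31R3.Kes.SigUp

/-!
Deterministic part of the lower bound for the two-point function: arms at the two points, circuits
around them and crossings of two long rectangles give a connection.
-/

set_option maxHeartbeats 1000000

namespace T213

open H31K H974 Finset

theorem trl_back (x1 x2 : ℤ) (u : Vtx) :
    (trl x1 x2).ψ ((trl (-x1) (-x2)).ψ u) = u := by
  obtain ⟨a, b⟩ := u
  rw [trl_ψ, trl_ψ]
  congr 1 <;> ring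

theorem trl_trl' (s t : ℤ) (F : Finset Edg) : (trl s t).mp ((trl (-s) (-t)).mp F) = F := by
  have := trl_trl (-s) (-t) F
  rwa [neg_neg, neg_neg] at this

/-- All the paths which leave the circuit around `(x1, x2)` are connected together. -/
theorem circ_meet_at {F : Finset Edg} {m : ℕ} (hm : 1 ≤ m) {x1 x2 : ℤ}
    (hC : Circ m ((2 * m : ℕ) : ℤ) ((trl (-x1) (-x2)).mp F)) :
    ∃ z : Vtx, ∀ u v : Vtx, inR (x1 - m) (x1 + m) (x2 - m) (x2 + m) u →
      (v.1 = x1 - 2 * m ∨ v.1 = x1 + 2 * m ∨ v.2 = x2 - 2 * m ∨ v.2 = x2 + 2 * m) →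
      Reach (↑F ∩ ↑(RE (x1 - 2 * m) (x1 + 2 * m) (x2 - 2 * m) (x2 + 2 * m))) u v →
        Reach (↑F : Set Edg) u z := by
  obtain ⟨z, hz⟩ := circ_meet (by positivity) (by push_cast; omega) hC
  refine ⟨(trl x1 x2).ψ z, ?_⟩
  rintro ⟨u1, u2⟩ ⟨v1, v2⟩ hu hv h
  have h1 := (trl (-x1) (-x2)).reach h
  rw [LSym.image_inter, trl_RE, trl_ψ, trl_ψ] at h1
  have h2 := hz (u1 + -x1, u2 + -x2) (v1 + -x1, v2 + -x2) (by
      unfold inR at hu ⊢
      simp only at hu ⊢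
      omega) (by
      simp only at hv ⊢
      push_cast
      omega) (h1.mono (by
      apply Set.inter_subset_inter_right
      have : RE (x1 - 2 * m + -x1) (x1 + 2 * m + -x1) (x2 - 2 * m + -x2) (x2 + 2 * m + -x2) ⊆
          RE (-((2 * m : ℕ) : ℤ)) ((2 * m : ℕ) : ℤ) (-((2 * m : ℕ) : ℤ)) ((2 * m : ℕ) : ℤ) := by
        apply RE_subset <;> (push_cast; omega)
      exact_mod_cast this))
  have h3 := (trl x1 x2).reach (h2.mono Set.inter_subset_left)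
  rw [← LSym.coe_mp, trl_trl', trl_ψ] at h3
  have e : (u1 + -x1 + x1, u2 + -x2 + x2) = (u1, u2) := by
    congr 1 <;> ring
  rwa [e] at h3

/-- An arm of `(x1, x2)`. -/
theorem arm_at {F : Finset Edg} {n : ℕ} {x1 x2 : ℤ} (h : Arm n ((trl (-x1) (-x2)).mp F)) :
    ∃ v : Vtx, (v.1 = x1 - n ∨ v.1 = x1 + n ∨ v.2 = x2 - n ∨ v.2 = x2 + n) ∧
      Reach (↑F ∩ ↑(RE (x1 - n) (x1 + n) (x2 - n) (x2 + n))) (x1, x2) v := by
  obtain ⟨⟨v1, v2⟩, hv, hr⟩ := h
  refine ⟨(v1 + x1, v2 + x2), ?_, ?_⟩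
  · have := hv.2
    simp only at this ⊢
    omega
  · have h1 := (trl x1 x2).reach hr
    rw [LSym.image_inter, trl_trl', trl_ψ, trl_ψ, zero_add, zero_add] at h1
    refine h1.mono ?_
    apply Set.inter_subset_inter_right
    have : (trl x1 x2).mp (boxE n) ⊆ RE (x1 - n) (x1 + n) (x2 - n) (x2 + n) := by
      unfold boxE
      rw [trl_RE]
      apply RE_subset <;> omega
    exact_mod_cast this

/-- A horizontal path through the circuit. -/
theorem link_LR {F : Finset Edg} {m : ℕ} (hm : 1 ≤ m) {x1 x2 : ℤ} {z : Vtx}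
    (hz : ∀ u v : Vtx, inR (x1 - m) (x1 + m) (x2 - m) (x2 + m) u →
      (v.1 = x1 - 2 * m ∨ v.1 = x1 + 2 * m ∨ v.2 = x2 - 2 * m ∨ v.2 = x2 + 2 * m) →
      Reach (↑F ∩ ↑(RE (x1 - 2 * m) (x1 + 2 * m) (x2 - 2 * m) (x2 + 2 * m))) u v →
        Reach (↑F : Set Edg) u z)
    {A B : ℤ} (hA : A ≤ x1) (hB : x1 + 2 * m ≤ B) {u v : Vtx}
    (h : Reach (↑F ∩ ↑(RE A B (x2 - m) (x2 + m))) u v) (hu : u.1 ≤ x1) (hv : B ≤ v.1) :
    Reach (↑F : Set Edg) u z := by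
  obtain ⟨y1, y2, k1, k2, k3, k4⟩ := sub_LR (G := (↑F : Set Edg) ∩ ↑(RE A B (x2 - m) (x2 + m)))
    (a := x1) (b := B) (c := x2 - m) (d := x2 + m) (by omega)
    (by
      intro x y hxy _ _
      have := hxy.2
      rw [Finset.mem_coe, mem_RE_true] at this
      omega)
    (by
      intro x y hxy _ _
      have := hxy.2
      rw [Finset.mem_coe, mem_RE_false] at this
      omega) h hu hv
  obtain ⟨w, w1, w2, w3⟩ := first_exit (a := x1 - 2 * m) (b := x1 + 2 * m) (c := x2 - 2 * m)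
    (d := x2 + 2 * m) (u := (x1, y1)) (by unfold inR; simp only; omega) k3
    (by simp only; omega)
  have h5 := hz (x1, y1) w (by unfold inR; simp only; omega) w2
    (w3.mono (by rintro e ⟨⟨⟨h4, -⟩, -⟩, h5⟩; exact ⟨h4, h5⟩))
  exact (k4.mono Set.inter_subset_left).trans h5

/-- A vertical path through the circuit. -/
theorem link_TB {F : Finset Edg} {m : ℕ} (hm : 1 ≤ m) {x1 x2 : ℤ} {z : Vtx}
    (hz : ∀ u v : Vtx, inR (x1 - m) (x1 + m) (x2 - m) (x2 + m) u →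
      (v.1 = x1 - 2 * m ∨ v.1 = x1 + 2 * m ∨ v.2 = x2 - 2 * m ∨ v.2 = x2 + 2 * m) →
      Reach (↑F ∩ ↑(RE (x1 - 2 * m) (x1 + 2 * m) (x2 - 2 * m) (x2 + 2 * m))) u v →
        Reach (↑F : Set Edg) u z)
    {C D : ℤ} (hC : C ≤ x2) (hD : x2 + 2 * m ≤ D) {u v : Vtx}
    (h : Reach (↑F ∩ ↑(RE (x1 - m) (x1 + m) C D)) u v) (hu : u.2 ≤ x2) (hv : D ≤ v.2) :
    Reach (↑F : Set Edg) u z := by
  obtain ⟨y1, y2, k1, k2, k3, k4⟩ := sub_TB (G := (↑F : Set Edg) ∩ ↑(RE (x1 - m) (x1 + m) C D))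
    (a := x1 - m) (b := x1 + m) (c := x2) (d := D) (by omega)
    (by
      intro x y hxy _ _
      have := hxy.2
      rw [Finset.mem_coe, mem_RE_false] at this
      omega)
    (by
      intro x y hxy _ _
      have := hxy.2
      rw [Finset.mem_coe, mem_RE_true] at this
      omega) h hu hv
  obtain ⟨w, w1, w2, w3⟩ := first_exit (a := x1 - 2 * m) (b := x1 + 2 * m) (c := x2 - 2 * m)
    (d := x2 + 2 * m) (u := (y1, x2)) (by unfold inR; simp only; omega) k3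
    (by simp only; omega)
  have h5 := hz (y1, x2) w (by unfold inR; simp only; omega) w2
    (w3.mono (by rintro e ⟨⟨⟨h4, -⟩, -⟩, h5⟩; exact ⟨h4, h5⟩))
  exact (k4.mono Set.inter_subset_left).trans h5

/-- The events which connect `(0, 0)` and `(x1, x2)`. -/
def Conn (m : ℕ) (x1 x2 : ℤ) (F : Finset Edg) : Prop :=
  ((Arm (2 * m) F ∧ Circ m ((2 * m : ℕ) : ℤ) F) ∧
    (Arm (2 * m) ((trl (-x1) (-x2)).mp F) ∧ Circ m ((2 * m : ℕ) : ℤ) ((trl (-x1) (-x2)).mp F))) ∧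
  (LRc (min 0 x1 - 2 * m) (max 0 x1 + 2 * m) (-m) m F ∧
    TBc (x1 - m) (x1 + m) (min 0 x2 - 2 * m) (max 0 x2 + 2 * m) F)

theorem tp_of_conn {F : Finset Edg} {m : ℕ} (hm : 1 ≤ m) {x1 x2 : ℤ} (h : Conn m x1 x2 F) :
    TP (x1, x2) F := by
  obtain ⟨⟨⟨hA, hC⟩, ⟨hA', hC'⟩⟩, ⟨hL, hT⟩⟩ := h
  have hC0 : Circ m ((2 * m : ℕ) : ℤ) ((trl (-0) (-0)).mp F) := by
    have : (trl (-0) (-0)).mp F = F := by
      have := trl_trl' 0 0 F
      have e : (trl 0 0).mp ((trl (-0) (-0)).mp F) = (trl (-0) (-0)).mp F := by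
        ext ⟨x, y, b⟩
        rw [LSym.mem_mp, trl_φs, sub_zero, sub_zero]
      rw [← e]; exact this
    rw [this]; exact hC
  have hA0 : Arm (2 * m) ((trl (-0) (-0)).mp F) := by
    have : (trl (-0) (-0)).mp F = F := by
      have := trl_trl' 0 0 F
      have e : (trl 0 0).mp ((trl (-0) (-0)).mp F) = (trl (-0) (-0)).mp F := by
        ext ⟨x, y, b⟩
        rw [LSym.mem_mp, trl_φs, sub_zero, sub_zero]
      rw [← e]; exact this
    rw [this]; exact hA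
  obtain ⟨z1, hz1⟩ := circ_meet_at hm hC0
  obtain ⟨z2, hz2⟩ := circ_meet_at hm hC'
  obtain ⟨v1, hv1, hr1⟩ := arm_at hA0
  obtain ⟨v2, hv2, hr2⟩ := arm_at hA'
  push_cast at hv1 hr1 hv2 hr2
  have m1 : Reach (↑F : Set Edg) (0, 0) z1 :=
    hz1 (0, 0) v1 (by unfold inR; simp only; omega) hv1 hr1
  have m2 : Reach (↑F : Set Edg) (x1, x2) z2 :=
    hz2 (x1, x2) v2 (by unfold inR; simp only; omega) hv2 hr2
  obtain ⟨y, y', hy, hy', hp⟩ := hL
  obtain ⟨x, x', hx, hx', hq⟩ := hT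
  have hp' : Reach ((↑F : Set Edg) ∩ ↑(RE (min 0 x1 - 2 * m) (max 0 x1 + 2 * m) (-(m:ℤ)) m))
      (min 0 x1 - 2 * m, y) (max 0 x1 + 2 * m, y') :=
    hp.mono (Set.inter_subset_inter_right _ (by exact_mod_cast LRE_subset_RE))
  have hq' : Reach ((↑F : Set Edg) ∩ ↑(RE (x1 - m) (x1 + m) (min 0 x2 - 2 * m) (max 0 x2 + 2 * m)))
      (x, min 0 x2 - 2 * m) (x', max 0 x2 + 2 * m) :=
    hq.mono (Set.inter_subset_inter_right _ (by exact_mod_cast TBE_subset_RE))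
  have m3 : Reach (↑F : Set Edg) (min 0 x1 - 2 * m, y) z1 := by
    refine link_LR hm hz1 (A := min 0 x1 - 2 * m) (B := max 0 x1 + 2 * m) (by omega) (by omega)
      (v := (max 0 x1 + 2 * m, y')) ?_ (by simp only; omega) le_rfl
    have e1 : (0:ℤ) - m = -m := by ring
    have e2 : (0:ℤ) + m = m := by ring
    rw [e1, e2]
    exact hp'
  have m4 : Reach (↑F : Set Edg) (x, min 0 x2 - 2 * m) z2 :=
    link_TB hm hz2 (C := min 0 x2 - 2 * m) (D := max 0 x2 + 2 * m) (by omega) (by omega)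
      (v := (x', max 0 x2 + 2 * m)) hq' (by simp only; omega) le_rfl
  have m5 := cross_meet (F := (↑F : Set Edg)) (A := min 0 x1 - 2 * m) (B := max 0 x1 + 2 * m)
    (C := min 0 x2 - 2 * m) (D := max 0 x2 + 2 * m) (a := x1 - m) (b := x1 + m) (c := -(m:ℤ))
    (d := m) (by omega) (by omega) (by omega) (by omega) (by omega) (by omega) hp'
    (by simp only; omega) (by simp only; omega) hq' (by simp only; omega) (by simp only; omega)
  exact m1.trans (m3.symm.trans ((m5.mono Set.inter_subset_left).trans (m4.trans m2.symm)))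

theorem Conn_incr (S : Finset Edg) (m : ℕ) (x1 x2 : ℤ) : IncrE S (Conn m x1 x2) := by
  intro F G h _ hF
  obtain ⟨⟨⟨hA, hC⟩, ⟨hA', hC'⟩⟩, ⟨hL, hT⟩⟩ := hF
  have h' := LSym.mp_mono (trl (-x1) (-x2)) h
  exact ⟨⟨⟨hA.mono h, hC.mono h⟩, ⟨hA'.mono h', hC'.mono h'⟩⟩, ⟨hL.mono h, hT.mono h⟩⟩

end T213
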