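import Pool.Agent.Run7.h213.T.Lowf

/-!
The exponential decay rates of the two-point function below the critical point.
-/

set_option maxHeartbeats 1000000

namespace T213

open H31K H974 Finset Pool.Agent.W424.NC MeasureTheory Filter

theorem tau_tendsto (p : unitInterval) (x : Vtx) :
    Tendsto (fun n : ℕ => Pr (fun _ => (p:ℝ)) (boxE n) (TP x)) atTop (nhds (tau p x)) := by
  have hm : Monotone (fun n : ℕ => {ω : sqLattice.edgeSet → Bool | TP x (FF (boxE n) ω)}) := by
    intro n m hnm ω hω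
    have h' : Reach (↑(FF (boxE n) ω) : Set Edg) (0, 0) x := hω
    rw [FF_coe] at h'
    show Reach (↑(FF (boxE m) ω) : Set Edg) (0, 0) x
    rw [FF_coe]
    exact h'.mono (Set.inter_subset_inter_right _ (by exact_mod_cast boxE_mono hnm))
  have h1 := tendsto_measure_iUnion_atTop (μ := bondLaw p) hm
  rw [← t10_union x] at h1
  have h2 := (ENNReal.tendsto_toReal (measure_ne_top (bondLaw p) _)).comp h1
  refine h2.congr (fun n => ?_)
  rw [← law_event p (boxE n) (TP x)]
  rfl

theorem tau_supermul (p : unitInterval) (x1 x2 y1 y2 : ℤ) :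
    tau p (x1, x2) * tau p (y1, y2) ≤ tau p (x1 + y1, x2 + y2) := by
  have h0 := p.2.1
  have h1 := p.2.2
  have ok := okq h0 h1
  obtain ⟨M, hM⟩ : ∃ M : ℕ, M = x1.natAbs + x2.natAbs := ⟨_, rfl⟩
  have key : ∀ n : ℕ, Pr (fun _ => (p:ℝ)) (boxE (n + M)) (TP (x1, x2)) *
      Pr (fun _ => (p:ℝ)) (boxE n) (TP (y1, y2)) ≤
        Pr (fun _ => (p:ℝ)) (boxE (n + M)) (TP (x1 + y1, x2 + y2)) := by
    intro n
    have i1 : ∀ x : Vtx, ∀ S : Finset Edg, IncrE S (TP x) := by
      intro x S F G hFG _ h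
      exact Reach.mono (by exact_mod_cast hFG) h
    have i2 : IncrE (boxE (n + M)) (fun F => TP (y1, y2) ((trl (-x1) (-x2)).mp F)) :=
      fun F G hFG _ h => Reach.mono (by exact_mod_cast LSym.mp_mono _ hFG) h
    have h2 : Pr (fun _ => (p:ℝ)) (boxE n) (TP (y1, y2)) ≤ Pr (fun _ => (p:ℝ)) (boxE (n + M))
        (fun F => TP (y1, y2) ((trl (-x1) (-x2)).mp F)) := by
      rw [← LSym.pr]
      apply Pr_mono_set ok _ (i1 _ _)
      unfold boxE
      rw [trl_RE]
      apply RE_subset <;> (push_cast; omega)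
    have h3 := harris2 ok (i1 (x1, x2) (boxE (n + M))) i2 (Pr_nonneg ok _ _) (Pr_nonneg ok _ _)
      le_rfl h2
    refine h3.trans (Pr_mono ok ?_)
    rintro F _ ⟨k1, k2⟩
    have k1' : Reach (↑F : Set Edg) (0, 0) (x1, x2) := k1
    have k2' : Reach (↑((trl (-x1) (-x2)).mp F) : Set Edg) (0, 0) (y1, y2) := k2
    have k3 := (trl x1 x2).reach k2'
    rw [← LSym.coe_mp, trl_trl', trl_ψ, trl_ψ, zero_add, zero_add] at k3
    show Reach (↑F : Set Edg) (0, 0) (x1 + y1, x2 + y2)
    rw [add_comm x1 y1, add_comm x2 y2]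
    exact k1'.trans k3
  have t1 := (tendsto_add_atTop_iff_nat M).mpr (tau_tendsto p (x1, x2))
  have t2 := tau_tendsto p (y1, y2)
  have t3 := (tendsto_add_atTop_iff_nat M).mpr (tau_tendsto p (x1 + y1, x2 + y2))
  exact le_of_tendsto_of_tendsto' (t1.mul t2) t3 key

theorem tau_zero (p : unitInterval) : tau p (0, 0) = 1 := by
  have : {ω : sqLattice.edgeSet → Bool | ((0, 0) : Vtx) ∈ cluster0 ω} = Set.univ := by
    ext ω
    simp only [Set.mem_setOf_eq, Set.mem_univ, iff_true]
    exact SimpleGraph.Reachable.refl _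
  unfold tau
  rw [this]
  exact probReal_univ

/-- The decay rate exists. -/
theorem rate_exists (p : unitInterval) (x1 x2 : ℤ)
    (hpos : ∀ n : ℕ, 0 < tau p (n * x1, n * x2)) :
    ∃ m : ℝ, Tendsto (fun n : ℕ => -Real.log (tau p (n * x1, n * x2)) / n) atTop (nhds m) := by
  have hsub : Subadditive (fun n : ℕ => -Real.log (tau p (n * x1, n * x2))) := by
    intro m n
    have h := tau_supermul p (m * x1) (m * x2) (n * x1) (n * x2)
    have e1 : (m:ℤ) * x1 + n * x1 = ((m + n : ℕ) : ℤ) * x1 := by push_cast; ring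
    have e2 : (m:ℤ) * x2 + n * x2 = ((m + n : ℕ) : ℤ) * x2 := by push_cast; ring
    rw [e1, e2] at h
    have h2 := Real.log_le_log (mul_pos (hpos m) (hpos n)) h
    rw [Real.log_mul (hpos m).ne' (hpos n).ne'] at h2
    show -Real.log (tau p (((m + n : ℕ) : ℤ) * x1, ((m + n : ℕ) : ℤ) * x2)) ≤
      -Real.log (tau p (m * x1, m * x2)) + -Real.log (tau p (n * x1, n * x2))
    linarith
  have hbdd : BddBelow (Set.range
      (fun n : ℕ => (fun n : ℕ => -Real.log (tau p (n * x1, n * x2))) n / n)) := by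
    refine ⟨0, ?_⟩
    rintro _ ⟨n, rfl⟩
    have h2 : Real.log (tau p (n * x1, n * x2)) ≤ 0 :=
      Real.log_nonpos (hpos n).le (tau_le_one p _)
    simp only
    apply div_nonneg _ (Nat.cast_nonneg n)
    linarith
  exact ⟨_, hsub.tendsto_lim hbdd⟩

/-- Decay rates from the bounds. -/
theorem rate_bounds {u : ℕ → ℝ} {a b B1 B2 l r : ℝ} (hr : 0 < r) (hB1 : 0 < B1)
    (hB2 : 0 < B2) (hl : 0 ≤ l)
    (h1 : ∀ n : ℕ, 1 ≤ n → B1 * (n * r)^(-l) * Real.exp (-(a * n)) ≤ u n)
    (h2 : ∀ n : ℕ, 1 ≤ n → u n ≤ B2 * (n * r)^(-l) * Real.exp (-(b * n))) :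
    ∀ ε : ℝ, 0 < ε → ∀ᶠ n : ℕ in atTop,
      b - ε ≤ -Real.log (u n) / n ∧ -Real.log (u n) / n ≤ a + ε := by
  intro ε hε
  -- `log (n r) / n → 0`
  have t1 : Tendsto (fun n : ℕ => Real.log ((n:ℝ) * r) / n) atTop (nhds 0) := by
    have h3 : Tendsto (fun x : ℝ => Real.log x / x) atTop (nhds 0) := by
      have := Real.isLittleO_log_id_atTop.tendsto_div_nhds_zero
      simpa using this
    have h4 : Tendsto (fun n : ℕ => (n:ℝ) * r) atTop atTop :=
      tendsto_natCast_atTop_atTop.atTop_mul_const hr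
    have h5 := (h3.comp h4).mul_const r
    rw [zero_mul] at h5
    refine h5.congr' ?_
    filter_upwards [eventually_ge_atTop 1] with n hn
    have : (0:ℝ) < n := by exact_mod_cast hn
    simp only [Function.comp]
    field_simp
  have t2 : Tendsto (fun n : ℕ => (1:ℝ) / n) atTop (nhds 0) := tendsto_one_div_atTop_nhds_zero_nat
  have t3 : Tendsto (fun n : ℕ => l * (Real.log ((n:ℝ) * r) / n) + |Real.log B1| * (1 / n) +
      |Real.log B2| * (1 / n)) atTop (nhds 0) := by
    have := ((t1.const_mul l).add (t2.const_mul |Real.log B1|)).add (t2.const_mul |Real.log B2|)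
    simpa using this
  have t4 : Tendsto (fun n : ℕ => l * (Real.log ((n:ℝ) * r) / n) - |Real.log B1| * (1 / n) -
      |Real.log B2| * (1 / n)) atTop (nhds 0) := by
    have := ((t1.const_mul l).sub (t2.const_mul |Real.log B1|)).sub (t2.const_mul |Real.log B2|)
    simpa using this
  filter_upwards [t3.eventually_lt_const hε, t4.eventually_const_lt (neg_lt_zero.mpr hε),
    eventually_ge_atTop 1] with n h3 h4 hn
  have hn0 : (0:ℝ) < n := by exact_mod_cast hn
  have hnr : 0 < (n:ℝ) * r := by positivity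
  have k1 := h1 n hn
  have k2 := h2 n hn
  have hlow : 0 < B1 * (n * r)^(-l) * Real.exp (-(a * n)) := by positivity
  have hu : 0 < u n := hlow.trans_le k1
  have k3 := Real.log_le_log hlow k1
  have k4 := Real.log_le_log hu k2
  have e : ∀ B c : ℝ, 0 < B → Real.log (B * (n * r)^(-l) * Real.exp (-(c * n))) =
      Real.log B - l * Real.log (n * r) - c * n := by
    intro B c hB
    rw [Real.log_mul (by positivity) (Real.exp_pos _).ne', Real.log_mul hB.ne' (by positivity),
      Real.log_exp, Real.log_rpow hnr]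
    ring
  rw [e B1 a hB1] at k3
  rw [e B2 b hB2] at k4
  have a1 := neg_abs_le (Real.log B1)
  have a2 := le_abs_self (Real.log B2)
  have a3 := abs_nonneg (Real.log B1)
  have a4 := abs_nonneg (Real.log B2)
  have h3' : l * Real.log (n * r) + |Real.log B1| + |Real.log B2| < ε * n := by
    have := mul_lt_mul_of_pos_right h3 hn0
    have e2 : (l * (Real.log ((n:ℝ) * r) / n) + |Real.log B1| * (1 / n) +
      |Real.log B2| * (1 / n)) * n = l * Real.log (n * r) + |Real.log B1| + |Real.log B2| := by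
      field_simp
    rwa [e2] at this
  have h4' : -ε * n < l * Real.log (n * r) - |Real.log B1| - |Real.log B2| := by
    have := mul_lt_mul_of_pos_right h4 hn0
    have e2 : (l * (Real.log ((n:ℝ) * r) / n) - |Real.log B1| * (1 / n) -
      |Real.log B2| * (1 / n)) * n = l * Real.log (n * r) - |Real.log B1| - |Real.log B2| := by
      field_simp
    rwa [e2] at this
  constructor
  · rw [le_div_iff₀ hn0]
    linarith
  · rw [div_le_iff₀ hn0]
    linarith

end T213
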