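import Pool.Agent.Run7.h213.T.Ana

/-!
Lower bounds for the truncated two-point function and for the radius, in the infinite volume.
-/

set_option maxHeartbeats 1000000

namespace T213

open H31K H974 Finset Pool.Agent.W424.NC MeasureTheory

theorem finite_of_blk {ω : sqLattice.edgeSet → Bool} {n k : ℕ} (hnk : n < k)
    (h : Blk n (k : ℤ) (FF (boxE k) ω)) : (cluster0 ω).Finite := by
  rw [finite_iff]
  refine ⟨k, fun h2 => ?_⟩
  rw [armE_iff] at h2
  obtain ⟨v, hv, hr⟩ := h2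
  refine not_blk_of_arm (F := FF (boxE k) ω) (R1 := n) (R2 := k) (v := v) (by positivity)
    (by exact_mod_cast hnk) ?_ ?_ h
  · rw [FF_coe]; exact hr
  · have := hv.2
    omega

/-- An increasing event in a box and a closed dual circuit around the box. -/
theorem event_blk (p : unitInterval) {n k : ℕ} (hnk : n < k) (A : Finset Edg → Prop) :
    (bondLaw p).real {ω | A (FF (boxE n) ω) ∧ (cluster0 ω).Finite} ≥
      Pr (fun _ => (p:ℝ)) (boxE n) A * Pr (fun _ => (p:ℝ)) (annE n k) (Blk n (k : ℤ)) := by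
  have hs1 : boxE n ⊆ boxE k := boxE_mono hnk.le
  have hs2 : annE n k ⊆ boxE k := annE_sub n k
  have hd : Disjoint (boxE n) (annE n k) := by
    unfold annE
    exact Finset.disjoint_sdiff
  have hA : ∀ F, F ⊆ boxE k → ((fun F => A (F ∩ boxE n)) F ↔
      (fun F => A (F ∩ boxE n)) (F ∩ boxE n)) := by
    intro F _
    simp only [Finset.inter_assoc, Finset.inter_self]
  have h1 := Pr_indep (p := fun _ => (p:ℝ)) hs1 hs2 hd (A := fun F => A (F ∩ boxE n))
    (B := Blk n (k : ℤ)) hA (fun F _ => Blk_local hnk (Finset.Subset.refl _) F)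
  have h2 : Pr (fun _ => (p:ℝ)) (boxE k) (fun F => A (F ∩ boxE n)) =
      Pr (fun _ => (p:ℝ)) (boxE n) A := by
    rw [Pr_local hs1 hA]
    apply Pr_congr
    intro F hF
    rw [Finset.inter_eq_left.mpr hF]
  have h3 : Pr (fun _ => (p:ℝ)) (boxE k) (Blk n (k : ℤ)) =
      Pr (fun _ => (p:ℝ)) (annE n k) (Blk n (k : ℤ)) :=
    Pr_local hs2 (fun F _ => Blk_local hnk (Finset.Subset.refl _) F)
  rw [h2, h3] at h1
  rw [← h1, ← law_event p (boxE k) (fun F => A (F ∩ boxE n) ∧ Blk n (k : ℤ) F)]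
  refine measureReal_mono ?_ (measure_ne_top _ _)
  rintro ω ⟨k1, k2⟩
  refine ⟨?_, finite_of_blk hnk k2⟩
  have e : FF (boxE k) ω ∩ boxE n = FF (boxE n) ω := by
    ext e
    rw [Finset.mem_inter, mem_FF, mem_FF]
    constructor
    · rintro ⟨⟨h4, h5⟩, h6⟩; exact ⟨h6, h5⟩
    · rintro ⟨h4, h5⟩; exact ⟨⟨hs1 h4, h5⟩, h4⟩
  rwa [e] at k1

theorem inf_null {p : unitInterval} (hp : (p:ℝ) ≤ 1/2) {E : Set (sqLattice.edgeSet → Bool)} :
    (bondLaw p).real E ≤ (bondLaw p).real {ω | ω ∈ E ∧ (cluster0 ω).Finite} := by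
  have h1 : (bondLaw p).real {ω | (cluster0 ω).Infinite} = 0 := theta_half_le hp
  have h2 : E ⊆ {ω | ω ∈ E ∧ (cluster0 ω).Finite} ∪ {ω | (cluster0 ω).Infinite} := by
    intro ω hω
    by_cases hf : (cluster0 ω).Finite
    · exact Or.inl ⟨hω, hf⟩
    · exact Or.inr hf
  calc (bondLaw p).real E ≤
        (bondLaw p).real ({ω | ω ∈ E ∧ (cluster0 ω).Finite} ∪ {ω | (cluster0 ω).Infinite}) :=
        measureReal_mono h2 (measure_ne_top _ _)
    _ ≤ _ := measureReal_union_le _ _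
    _ = _ := by rw [h1, add_zero]

theorem tp_sub {ω : sqLattice.edgeSet → Bool} {S : Finset Edg} {x : Vtx}
    (h : TP x (FF S ω)) : x ∈ cluster0 ω := by
  have h' : Reach (↑(FF S ω) : Set Edg) (0, 0) x := h
  rw [FF_coe] at h'
  exact (open_reach ω _ _).mpr (h'.mono Set.inter_subset_left)

/-- Lower bound for the truncated two-point function. -/
theorem tauf_lower : ∃ c C : ℝ, 0 < c ∧ 0 < C ∧ ∀ p : unitInterval, (1/4 : ℝ) ≤ p →
    (p:ℝ) ≤ 3/4 → ∀ (x1 x2 : ℤ) (r : ℕ), 1 ≤ r → |x1| ≤ r → |x2| ≤ r →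
    c * (r:ℝ)^(-(5/24) : ℝ) * Real.exp (-(C * (r * |(p:ℝ) - 1/2|^(4/3 : ℝ)))) ≤
    (bondLaw p).real {ω | (x1, x2) ∈ cluster0 ω ∧ (cluster0 ω).Finite} := by
  obtain ⟨c1, C1, hc1, hC1, h1⟩ := tp_lower
  obtain ⟨c2, C2, hc2, hC2, h2⟩ := blk_lower
  refine ⟨min c1 (c1 * c2), max C1 (3 * C2), by positivity, by positivity, ?_⟩
  intro p hp hp1 x1 x2 r hr hx1 hx2
  have hr0 : (0:ℝ) < r := by exact_mod_cast hr
  have hrp : 0 < (r:ℝ)^(-(5/24) : ℝ) := by positivity
  rcases le_or_gt (p:ℝ) (1/2) with hle | hgt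
  · have e1 : |(p:ℝ) - 1/2| = 1/2 - p := by rw [abs_of_nonpos (by linarith)]; ring
    rw [e1]
    obtain ⟨t, ht⟩ : ∃ t : ℝ, t = (1/2 - (p:ℝ))^(4/3 : ℝ) := ⟨_, rfl⟩
    have ht0 : 0 ≤ t := by
      rw [ht]; exact Real.rpow_nonneg (by linarith) _
    have h3 := h1 p r x1 x2 hp hle hr hx1 hx2
    rw [← ht] at h3 ⊢
    have h4 : Pr (fun _ => (p:ℝ)) (boxE (3 * r)) (TP (x1, x2)) ≤
        (bondLaw p).real {ω | (x1, x2) ∈ cluster0 ω} := by
      rw [← law_event p (boxE (3 * r)) (TP (x1, x2))]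
      exact measureReal_mono (fun ω hω => tp_sub hω) (measure_ne_top _ _)
    have h5 := inf_null hle (E := {ω | (x1, x2) ∈ cluster0 ω})
    refine le_trans ?_ (h3.trans (h4.trans h5))
    apply mul_le_mul (mul_le_mul_of_nonneg_right (min_le_left _ _) hrp.le) _
      (Real.exp_pos _).le (by positivity)
    apply Real.exp_le_exp.mpr
    have : C1 * (r * t) ≤ max C1 (3 * C2) * (r * t) :=
      mul_le_mul_of_nonneg_right (le_max_left _ _) (by positivity)
    linarith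
  · have e1 : |(p:ℝ) - 1/2| = p - 1/2 := abs_of_pos (by linarith)
    rw [e1]
    obtain ⟨t, ht⟩ : ∃ t : ℝ, t = ((p:ℝ) - 1/2)^(4/3 : ℝ) := ⟨_, rfl⟩
    have ht0 : 0 ≤ t := by
      rw [ht]; exact Real.rpow_nonneg (by linarith) _
    obtain ⟨k, hk, h3⟩ := h2 p (3 * r) hgt.le hp1 (by omega)
    rw [← ht] at h3 ⊢
    have h4 := h1 (1/2) r x1 x2 (by norm_num) le_rfl hr hx1 hx2
    have e2 : ((1:ℝ)/2 - 1/2)^(4/3 : ℝ) = 0 := by
      rw [sub_self]
      exact Real.zero_rpow (by norm_num)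
    rw [e2, mul_zero, mul_zero, neg_zero, Real.exp_zero, mul_one] at h4
    have h5 : Pr (fun _ => (1/2:ℝ)) (boxE (3 * r)) (TP (x1, x2)) ≤
        Pr (fun _ => (p:ℝ)) (boxE (3 * r)) (TP (x1, x2)) := by
      apply Pr_mono_param (okq (by norm_num) (by norm_num)) (okq p.2.1 p.2.2)
        (fun _ => hgt.le)
      intro F G hFG _ h
      exact Reach.mono (by exact_mod_cast hFG) h
    have h6 := event_blk p hk (TP (x1, x2))
    have h7 : (bondLaw p).real {ω | TP (x1, x2) (FF (boxE (3 * r)) ω) ∧ (cluster0 ω).Finite} ≤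
        (bondLaw p).real {ω | (x1, x2) ∈ cluster0 ω ∧ (cluster0 ω).Finite} :=
      measureReal_mono (fun ω hω => ⟨tp_sub hω.1, hω.2⟩) (measure_ne_top _ _)
    refine le_trans ?_ (h6.le.trans h7)
    have h8 := mul_le_mul (h4.trans h5) h3 (by positivity)
      (Pr_nonneg (okq p.2.1 p.2.2) _ _)
    refine le_trans ?_ h8
    have h9 : Real.exp (-(max C1 (3 * C2) * (r * t))) ≤
        Real.exp (-(C2 * (((3 * r : ℕ) : ℝ) * t))) := by
      apply Real.exp_le_exp.mpr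
      push_cast
      have : 3 * C2 * (r * t) ≤ max C1 (3 * C2) * (r * t) :=
        mul_le_mul_of_nonneg_right (le_max_right _ _) (by positivity)
      linarith
    calc min c1 (c1 * c2) * (r:ℝ)^(-(5/24) : ℝ) * Real.exp (-(max C1 (3 * C2) * (r * t)))
        ≤ (c1 * c2) * (r:ℝ)^(-(5/24) : ℝ) * Real.exp (-(C2 * (((3 * r : ℕ) : ℝ) * t))) := by
          apply mul_le_mul (mul_le_mul_of_nonneg_right (min_le_right _ _) hrp.le) h9
            (Real.exp_pos _).le (by positivity)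
      _ = c1 * (r:ℝ)^(-(5/24) : ℝ) * (c2 * Real.exp (-(C2 * (((3 * r : ℕ) : ℝ) * t)))) := by ring

/-- Lower bound for the radius of finite clusters. -/
theorem radf_lower : ∃ c C : ℝ, 0 < c ∧ 0 < C ∧ ∀ p : unitInterval, (1/4 : ℝ) ≤ p →
    (p:ℝ) ≤ 3/4 → ∀ n : ℕ, 1 ≤ n →
    c * (n:ℝ)^(-(5/48) : ℝ) * Real.exp (-(C * (n * |(p:ℝ) - 1/2|^(4/3 : ℝ)))) ≤
    (bondLaw p).real {ω | ω ∈ ArmE n ∧ (cluster0 ω).Finite} := by
  obtain ⟨c1, C1, hc1, hC1, h1⟩ := arm_lower
  obtain ⟨c2, C2, hc2, hC2, h2⟩ := blk_lower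
  refine ⟨min c1 (c1 * c2), max C1 C2, by positivity, by positivity, ?_⟩
  intro p hp hp1 n hn
  have hn0 : (0:ℝ) < n := by exact_mod_cast hn
  have hnp : 0 < (n:ℝ)^(-(5/48) : ℝ) := by positivity
  rcases le_or_gt (p:ℝ) (1/2) with hle | hgt
  · have e1 : |(p:ℝ) - 1/2| = 1/2 - p := by rw [abs_of_nonpos (by linarith)]; ring
    rw [e1]
    obtain ⟨t, ht⟩ : ∃ t : ℝ, t = (1/2 - (p:ℝ))^(4/3 : ℝ) := ⟨_, rfl⟩
    have ht0 : 0 ≤ t := by
      rw [ht]; exact Real.rpow_nonneg (by linarith) _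
    have h3 := h1 p n hp hle hn
    rw [← ht] at h3 ⊢
    rw [← law_armE] at h3
    have h5 := inf_null hle (E := ArmE n)
    refine le_trans ?_ (h3.trans h5)
    apply mul_le_mul (mul_le_mul_of_nonneg_right (min_le_left _ _) hnp.le) _
      (Real.exp_pos _).le (by positivity)
    apply Real.exp_le_exp.mpr
    have : C1 * (n * t) ≤ max C1 C2 * (n * t) :=
      mul_le_mul_of_nonneg_right (le_max_left _ _) (by positivity)
    linarith
  · have e1 : |(p:ℝ) - 1/2| = p - 1/2 := abs_of_pos (by linarith)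
    rw [e1]
    obtain ⟨t, ht⟩ : ∃ t : ℝ, t = ((p:ℝ) - 1/2)^(4/3 : ℝ) := ⟨_, rfl⟩
    have ht0 : 0 ≤ t := by
      rw [ht]; exact Real.rpow_nonneg (by linarith) _
    obtain ⟨k, hk, h3⟩ := h2 p n hgt.le hp1 hn
    rw [← ht] at h3 ⊢
    have h4 := h1 (1/2) n (by norm_num) le_rfl hn
    have e2 : ((1:ℝ)/2 - 1/2)^(4/3 : ℝ) = 0 := by
      rw [sub_self]
      exact Real.zero_rpow (by norm_num)
    rw [e2, mul_zero, mul_zero, Real.exp_zero, mul_one] at h4
    have h5 : arm (1/2) n ≤ arm p n := arm_mono_param (by norm_num) hgt.le p.2.2 n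
    have h6 := event_blk p hk (Arm n)
    have h8 := mul_le_mul (h4.trans h5) h3 (by positivity) (arm_nonneg p.2.1 p.2.2 n)
    have h9 : Real.exp (-(max C1 C2 * (n * t))) ≤ Real.exp (-(C2 * (n * t))) := by
      apply Real.exp_le_exp.mpr
      have : C2 * (n * t) ≤ max C1 C2 * (n * t) :=
        mul_le_mul_of_nonneg_right (le_max_right _ _) (by positivity)
      linarith
    calc min c1 (c1 * c2) * (n:ℝ)^(-(5/48) : ℝ) * Real.exp (-(max C1 C2 * (n * t)))
        ≤ (c1 * c2) * (n:ℝ)^(-(5/48) : ℝ) * Real.exp (-(C2 * (n * t))) := by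
          apply mul_le_mul (mul_le_mul_of_nonneg_right (min_le_right _ _) hnp.le) h9
            (Real.exp_pos _).le (by positivity)
      _ = c1 * (n:ℝ)^(-(5/48) : ℝ) * (c2 * Real.exp (-(C2 * (n * t)))) := by ring
      _ ≤ _ := h8
      _ ≤ _ := h6.le

/-- The radius event. -/
theorem rad_iff (ω : sqLattice.edgeSet → Bool) (n : ℕ) :
    (∃ v ∈ cluster0 ω, (n:ℤ) ≤ max |v.1| |v.2|) ↔ ω ∈ ArmE n := by
  constructor
  · rintro ⟨v, hv, hn⟩
    apply armE_of_reach (t10_reach hv)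
    rcases le_max_iff.mp hn with h | h
    · rcases le_abs.mp h with h | h
      · right; left; exact h
      · left; omega
    · rcases le_abs.mp h with h | h
      · right; right; right; exact h
      · right; right; left; omega
  · intro h
    rw [armE_iff] at h
    obtain ⟨v, hv, hr⟩ := h
    refine ⟨v, (open_reach ω _ _).mpr (hr.mono Set.inter_subset_left), ?_⟩
    have h2 := hv.2
    rcases h2 with h | h | h | h
    · apply le_max_of_le_left; rw [h, abs_neg]; exact le_abs_self _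
    · apply le_max_of_le_left; rw [h]; exact le_abs_self _
    · apply le_max_of_le_right; rw [h, abs_neg]; exact le_abs_self _
    · apply le_max_of_le_right; rw [h]; exact le_abs_self _

end T213
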