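import Pool.Agent.Run7.h213.T.Fek

/-!
The near-critical two-point function, assembled.
-/

set_option maxHeartbeats 1000000

namespace T213

open H31K H974 Finset Pool.Agent.W424.NC MeasureTheory Filter

/-- The sup norm of a vertex. -/
def snorm (x : ℤ × ℤ) : ℝ := ((max |x.1| |x.2| : ℤ) : ℝ)

/-- The probability that `x` is in the open cluster of the origin and that this cluster is
finite. -/
noncomputable def tauFin (p : unitInterval) (x : ℤ × ℤ) : ℝ :=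
  (bondLaw p).real {ω | x ∈ cluster0 ω ∧ (cluster0 ω).Finite}

/-- The probability that the open cluster of the origin is finite and contains a vertex at sup
distance at least `n` from the origin. -/
noncomputable def radFin (p : unitInterval) (n : ℕ) : ℝ :=
  (bondLaw p).real {ω | (∃ v ∈ cluster0 ω, (n : ℤ) ≤ max |v.1| |v.2|) ∧ (cluster0 ω).Finite}

theorem snorm_nat {x : ℤ × ℤ} (hx : x ≠ 0) : ∃ r : ℕ, 1 ≤ r ∧ snorm x = r ∧
    ((r:ℤ) ≤ |x.1| ∨ (r:ℤ) ≤ |x.2|) ∧ |x.1| ≤ r ∧ |x.2| ≤ r := by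
  obtain ⟨x1, x2⟩ := x
  refine ⟨(max |x1| |x2|).toNat, ?_, ?_, ?_, ?_, ?_⟩
  · by_contra h
    apply hx
    have h1 := abs_nonneg x1
    have h2 := abs_nonneg x2
    have h3 : max |x1| |x2| ≤ 0 := by omega
    have h4 : |x1| = 0 := le_antisymm ((le_max_left _ _).trans h3) h1
    have h5 : |x2| = 0 := le_antisymm ((le_max_right _ _).trans h3) h2
    rw [abs_eq_zero] at h4 h5
    rw [h4, h5]; rfl
  · unfold snorm
    have : (0:ℤ) ≤ max |x1| |x2| := (abs_nonneg x1).trans (le_max_left _ _)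
    have h2 : (((max |x1| |x2|).toNat : ℤ)) = max |x1| |x2| := Int.toNat_of_nonneg this
    calc ((max |x1| |x2| : ℤ) : ℝ) = (((max |x1| |x2|).toNat : ℤ) : ℝ) := by rw [h2]
      _ = _ := Int.cast_natCast _
  · have : (0:ℤ) ≤ max |x1| |x2| := (abs_nonneg x1).trans (le_max_left _ _)
    rw [Int.toNat_of_nonneg this]
    exact le_max_iff.mp le_rfl
  · have : (0:ℤ) ≤ max |x1| |x2| := (abs_nonneg x1).trans (le_max_left _ _)
    rw [Int.toNat_of_nonneg this]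
    exact le_max_left _ _
  · have : (0:ℤ) ≤ max |x1| |x2| := (abs_nonneg x1).trans (le_max_left _ _)
    rw [Int.toNat_of_nonneg this]
    exact le_max_right _ _

theorem snorm_smul (x : ℤ × ℤ) (n : ℕ) : snorm ((n:ℤ) * x.1, (n:ℤ) * x.2) = n * snorm x := by
  unfold snorm
  simp only
  have h1 : |(n:ℤ) * x.1| = n * |x.1| := by rw [abs_mul, Nat.abs_cast]
  have h2 : |(n:ℤ) * x.2| = n * |x.2| := by rw [abs_mul, Nat.abs_cast]
  rw [h1, h2, ← mul_max_of_nonneg _ _ (Nat.cast_nonneg n)]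
  push_cast
  ring

theorem radFin_eq (p : unitInterval) (n : ℕ) :
    radFin p n = (bondLaw p).real {ω | ω ∈ ArmE n ∧ (cluster0 ω).Finite} := by
  unfold radFin
  congr 1
  ext ω
  simp only [Set.mem_setOf_eq, rad_iff]

/-- Weakening of the constants, from below. -/
theorem weak_low {c c' C C' q y z : ℝ} (hq : 0 ≤ q) (hy : 0 ≤ y) (hc' : 0 ≤ c') (h1 : c' ≤ c)
    (h2 : C ≤ C') (h : c * q * Real.exp (-(C * y)) ≤ z) : c' * q * Real.exp (-(C' * y)) ≤ z := by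
  refine le_trans (mul_le_mul (mul_le_mul_of_nonneg_right h1 hq) ?_ (Real.exp_pos _).le
    (mul_nonneg (hc'.trans h1) hq)) h
  apply Real.exp_le_exp.mpr
  have := mul_le_mul_of_nonneg_right h2 hy
  linarith

theorem weak_up {c c' C C' q y z : ℝ} (hq : 0 ≤ q) (hy : 0 ≤ y) (hC : 0 ≤ C) (h1 : c' ≤ c)
    (h2 : C ≤ C') (h : z ≤ C * q * Real.exp (-(c * y))) : z ≤ C' * q * Real.exp (-(c' * y)) := by
  refine h.trans (mul_le_mul (mul_le_mul_of_nonneg_right h2 hq) ?_ (Real.exp_pos _).le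
    (mul_nonneg (hC.trans h2) hq))
  apply Real.exp_le_exp.mpr
  have := mul_le_mul_of_nonneg_right h1 hy
  linarith

/-- Two-sided bounds for the truncated two-point function. -/
theorem two_point : ∃ c C : ℝ, 0 < c ∧ 0 < C ∧ ∀ p : unitInterval, (1/4 : ℝ) ≤ p → (p:ℝ) ≤ 3/4 →
    ∀ x : ℤ × ℤ, x ≠ 0 →
      c * snorm x ^ (-(5/24) : ℝ) * Real.exp (-(C * (snorm x * |(p:ℝ) - 1/2|^(4/3 : ℝ)))) ≤
          tauFin p x ∧
      tauFin p x ≤
        C * snorm x ^ (-(5/24) : ℝ) * Real.exp (-(c * (snorm x * |(p:ℝ) - 1/2|^(4/3 : ℝ)))) := by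
  obtain ⟨c1, C1, hc1, hC1, h1⟩ := tauf_lower
  obtain ⟨c2, C2, hc2, hC2, h2⟩ := tauf_upper_sup
  obtain ⟨c3, C3, hc3, hC3, h3⟩ := tau_upper_sub
  refine ⟨min c1 (min c2 c3), max C1 (max C2 C3), by positivity, by positivity, ?_⟩
  intro p hp hp1 x hx
  obtain ⟨r, hr, hxr, hxa, hxb, hxc⟩ := snorm_nat hx
  obtain ⟨x1, x2⟩ := x
  rw [hxr]
  have hr0 : (0:ℝ) < r := by exact_mod_cast hr
  have hrp : 0 ≤ (r:ℝ)^(-(5/24) : ℝ) := by positivity
  have hy : 0 ≤ (r:ℝ) * |(p:ℝ) - 1/2|^(4/3 : ℝ) := by positivity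
  constructor
  · exact weak_low hrp hy (by positivity) (min_le_left _ _) (le_max_left _ _)
      (h1 p hp hp1 x1 x2 r hr hxb hxc)
  · rcases le_or_gt (p:ℝ) (1/2) with hle | hgt
    · have e1 : |(p:ℝ) - 1/2| = 1/2 - p := by rw [abs_of_nonpos (by linarith)]; ring
      have h4 := h3 p hle x1 x2 r hr hxa
      rw [← e1] at h4
      have h5 : tauFin p (x1, x2) ≤ tau p (x1, x2) :=
        measureReal_mono (fun ω hω => hω.1) (measure_ne_top _ _)
      exact weak_up hrp hy hC3.le ((min_le_right _ _).trans (min_le_right _ _))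
        ((le_max_right _ _).trans (le_max_right _ _)) (h5.trans h4)
    · have e1 : |(p:ℝ) - 1/2| = p - 1/2 := abs_of_pos (by linarith)
      have h4 := h2 p hgt x1 x2 r hr hxa
      rw [← e1] at h4
      exact weak_up hrp hy hC2.le ((min_le_right _ _).trans (min_le_left _ _))
        ((le_max_left _ _).trans (le_max_right _ _)) h4

/-- Two-sided bounds for the radius. -/
theorem radius : ∃ c C : ℝ, 0 < c ∧ 0 < C ∧ ∀ p : unitInterval, (1/4 : ℝ) ≤ p → (p:ℝ) ≤ 3/4 →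
    ∀ n : ℕ, 1 ≤ n →
      c * (n:ℝ) ^ (-(5/48) : ℝ) * Real.exp (-(C * (n * |(p:ℝ) - 1/2|^(4/3 : ℝ)))) ≤ radFin p n ∧
      radFin p n ≤
        C * (n:ℝ) ^ (-(5/48) : ℝ) * Real.exp (-(c * (n * |(p:ℝ) - 1/2|^(4/3 : ℝ)))) := by
  obtain ⟨c1, C1, hc1, hC1, h1⟩ := radf_lower
  obtain ⟨c2, C2, hc2, hC2, h2⟩ := radf_upper_sup
  obtain ⟨c3, C3, hc3, hC3, h3⟩ := arm_upper
  refine ⟨min c1 (min c2 c3), max C1 (max C2 C3), by positivity, by positivity, ?_⟩
  intro p hp hp1 n hn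
  rw [radFin_eq]
  have hn0 : (0:ℝ) < n := by exact_mod_cast hn
  have hnp : 0 ≤ (n:ℝ)^(-(5/48) : ℝ) := by positivity
  have hy : 0 ≤ (n:ℝ) * |(p:ℝ) - 1/2|^(4/3 : ℝ) := by positivity
  constructor
  · exact weak_low hnp hy (by positivity) (min_le_left _ _) (le_max_left _ _)
      (h1 p hp hp1 n hn)
  · rcases le_or_gt (p:ℝ) (1/2) with hle | hgt
    · have e1 : |(p:ℝ) - 1/2| = 1/2 - p := by rw [abs_of_nonpos (by linarith)]; ring
      have h4 := h3 p p.2.1 hle n hn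
      rw [← e1] at h4
      have h5 : (bondLaw p).real {ω | ω ∈ ArmE n ∧ (cluster0 ω).Finite} ≤ arm p n := by
        rw [← law_armE]
        exact measureReal_mono (fun ω hω => hω.1) (measure_ne_top _ _)
      exact weak_up hnp hy hC3.le ((min_le_right _ _).trans (min_le_right _ _))
        ((le_max_right _ _).trans (le_max_right _ _)) (h5.trans h4)
    · have e1 : |(p:ℝ) - 1/2| = p - 1/2 := abs_of_pos (by linarith)
      have h4 := h2 p hgt n hn
      rw [← e1] at h4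
      exact weak_up hnp hy hC2.le ((min_le_right _ _).trans (min_le_left _ _))
        ((le_max_left _ _).trans (le_max_right _ _)) h4

/-- The decay rates along the multiples of a vertex. -/
theorem rates {c C : ℝ} (hc : 0 < c) (hC : 0 < C)
    (h : ∀ p : unitInterval, (1/4 : ℝ) ≤ p → (p:ℝ) ≤ 3/4 → ∀ x : ℤ × ℤ, x ≠ 0 →
      c * snorm x ^ (-(5/24) : ℝ) * Real.exp (-(C * (snorm x * |(p:ℝ) - 1/2|^(4/3 : ℝ)))) ≤
          tauFin p x ∧
      tauFin p x ≤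
        C * snorm x ^ (-(5/24) : ℝ) * Real.exp (-(c * (snorm x * |(p:ℝ) - 1/2|^(4/3 : ℝ)))))
    (p : unitInterval) (hp : (1/4 : ℝ) ≤ p) (hp1 : (p:ℝ) ≤ 3/4) (hp2 : (p:ℝ) ≠ 1/2)
    (x : ℤ × ℤ) (hx : x ≠ 0) :
    ∀ᶠ n : ℕ in atTop,
      c / 2 * (snorm x * |(p:ℝ) - 1/2|^(4/3 : ℝ)) ≤
        -Real.log (tauFin p ((n:ℤ) * x.1, (n:ℤ) * x.2)) / n ∧
      -Real.log (tauFin p ((n:ℤ) * x.1, (n:ℤ) * x.2)) / n ≤
        (C + c / 2) * (snorm x * |(p:ℝ) - 1/2|^(4/3 : ℝ)) := by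
  obtain ⟨r, hr, hxr, hxa, hxb, hxc⟩ := snorm_nat hx
  have hr0 : (0:ℝ) < snorm x := by rw [hxr]; exact_mod_cast hr
  have ht0 : 0 < |(p:ℝ) - 1/2|^(4/3 : ℝ) :=
    Real.rpow_pos_of_pos (abs_pos.mpr (sub_ne_zero.mpr hp2)) _
  obtain ⟨Y, hY⟩ : ∃ Y : ℝ, Y = snorm x * |(p:ℝ) - 1/2|^(4/3 : ℝ) := ⟨_, rfl⟩
  have hY0 : 0 < Y := by rw [hY]; positivity
  have hne : ∀ n : ℕ, 1 ≤ n → (((n:ℤ) * x.1, (n:ℤ) * x.2) : ℤ × ℤ) ≠ 0 := by
    intro n hn h0
    apply hx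
    have h1 : (n:ℤ) * x.1 = 0 := congrArg Prod.fst h0
    have h2 : (n:ℤ) * x.2 = 0 := congrArg Prod.snd h0
    have hn' : (n:ℤ) ≠ 0 := by omega
    have h3 : x.1 = 0 := (mul_eq_zero.mp h1).resolve_left hn'
    have h4 : x.2 = 0 := (mul_eq_zero.mp h2).resolve_left hn'
    exact Prod.ext h3 h4
  have key := rate_bounds (u := fun n : ℕ => tauFin p ((n:ℤ) * x.1, (n:ℤ) * x.2))
    (a := C * Y) (b := c * Y) (B1 := c) (B2 := C) (l := 5/24) (r := snorm x) hr0 hc hC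
    (by norm_num)
    (by
      intro n hn
      have h1 := (h p hp hp1 _ (hne n hn)).1
      rw [snorm_smul] at h1
      have e : C * (n * snorm x * |(p:ℝ) - 1/2|^(4/3 : ℝ)) = C * Y * n := by rw [hY]; ring
      rw [e] at h1
      exact h1)
    (by
      intro n hn
      have h1 := (h p hp hp1 _ (hne n hn)).2
      rw [snorm_smul] at h1
      have e : c * (n * snorm x * |(p:ℝ) - 1/2|^(4/3 : ℝ)) = c * Y * n := by rw [hY]; ring
      rw [e] at h1
      exact h1) (c / 2 * Y) (by positivity)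
  rw [← hY]
  filter_upwards [key] with n hn
  have hn1 := hn.1
  have hn2 := hn.2
  constructor
  · linarith
  · linarith

theorem tauFin_eq {p : unitInterval} (hp : (p:ℝ) ≤ 1/2) (x : ℤ × ℤ) : tauFin p x = tau p x :=
  le_antisymm (measureReal_mono (fun ω hω => hω.1) (measure_ne_top _ _)) (inf_null hp)

/-- The decay rates exist below the critical point. -/
theorem rates_limit {c C : ℝ} (hc : 0 < c)
    (h : ∀ p : unitInterval, (1/4 : ℝ) ≤ p → (p:ℝ) ≤ 3/4 → ∀ x : ℤ × ℤ, x ≠ 0 →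
      c * snorm x ^ (-(5/24) : ℝ) * Real.exp (-(C * (snorm x * |(p:ℝ) - 1/2|^(4/3 : ℝ)))) ≤
          tauFin p x ∧
      tauFin p x ≤
        C * snorm x ^ (-(5/24) : ℝ) * Real.exp (-(c * (snorm x * |(p:ℝ) - 1/2|^(4/3 : ℝ)))))
    (p : unitInterval) (hp : (1/4 : ℝ) ≤ p) (hp1 : (p:ℝ) ≤ 1/2) (x : ℤ × ℤ) (hx : x ≠ 0) :
    ∃ m : ℝ, Tendsto (fun n : ℕ => -Real.log (tauFin p ((n:ℤ) * x.1, (n:ℤ) * x.2)) / n)
      atTop (nhds m) := by
  have hpos : ∀ n : ℕ, 0 < tau p (n * x.1, n * x.2) := by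
    intro n
    rcases Nat.eq_zero_or_pos n with h0 | hn
    · rw [h0]
      simp only [Nat.cast_zero, zero_mul]
      rw [tau_zero]
      exact one_pos
    · have hne : (((n:ℤ) * x.1, (n:ℤ) * x.2) : ℤ × ℤ) ≠ 0 := by
        intro h0
        apply hx
        have h1 : (n:ℤ) * x.1 = 0 := congrArg Prod.fst h0
        have h2 : (n:ℤ) * x.2 = 0 := congrArg Prod.snd h0
        have hn' : (n:ℤ) ≠ 0 := by omega
        have h3 : x.1 = 0 := (mul_eq_zero.mp h1).resolve_left hn'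
        have h4 : x.2 = 0 := (mul_eq_zero.mp h2).resolve_left hn'
        exact Prod.ext h3 h4
      obtain ⟨r, hr, hxr, -, -, -⟩ := snorm_nat hne
      have hr0 : (0:ℝ) < snorm ((n:ℤ) * x.1, (n:ℤ) * x.2) := by rw [hxr]; exact_mod_cast hr
      have h1 := (h p hp (by linarith) _ hne).1
      rw [← tauFin_eq hp1]
      exact lt_of_lt_of_le (by positivity) h1
  obtain ⟨m, hm⟩ := rate_exists p x.1 x.2 hpos
  refine ⟨m, hm.congr (fun n => ?_)⟩
  rw [tauFin_eq hp1]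

/-- Sharp bounds for the percolation probability. -/
theorem theta_bounds : ∃ c C : ℝ, 0 < c ∧ 0 < C ∧ ∀ p : unitInterval, (1/2 : ℝ) < p →
    c * ((p:ℝ) - 1/2)^(5/36 : ℝ) ≤ theta p ∧ theta p ≤ C * ((p:ℝ) - 1/2)^(5/36 : ℝ) := by
  obtain ⟨C, hC, h1⟩ := Pool.Agent.Y554.NC.theta_upper
  obtain ⟨c, hc, h2⟩ := Pool.Agent.Y554.NC.theta_lower'
  exact ⟨c, C, hc, hC, fun p hp => ⟨h2 p hp, h1 p hp⟩⟩

end T213
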